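import Pool.Agent.Y766.R3.Stm

/-!
Statements for the mean square over cosets of characters mod `p^m`, `m / ν ≥ 19 / 58`.
-/

set_option autoImplicit false

namespace Pool.Agent.Y766.R7

open Finset
open Pool.Agent.Y766.R3 (eu KL)

/-- the square root on the residue classes `≡ 1 mod p` modulo `p^r` (`p` odd) -/
noncomputable def sq (p r : ℕ) (x : ZMod (p ^ r)) : ZMod (p ^ r) := x ^ ((p ^ (r - 1) + 1) / 2)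

/-- SQ: basic properties of `sq` -/
def S_SQ : Prop := ∀ (p r : ℕ), p.Prime → p ≠ 2 → 1 ≤ r →
  (∀ y : ZMod (p ^ r), sq p r (1 + p * y) ^ 2 = 1 + p * y) ∧
  (∀ (a : ℕ) (y : ZMod (p ^ r)), 1 ≤ a → ∃ z : ZMod (p ^ r),
    sq p r (1 + (p : ZMod (p ^ r)) ^ a * y) = 1 + (p : ZMod (p ^ r)) ^ a * z) ∧
  (∀ y z : ZMod (p ^ r), (1 + p * z) ^ 2 = 1 + p * y → sq p r (1 + p * y) = 1 + p * z) ∧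
  (∀ x x' : ZMod (p ^ r), x = p * x' → x ^ 7 = 0 → sq p r (1 + 4 * x) =
    1 + 2 * x - 2 * x ^ 2 + 4 * x ^ 3 - 10 * x ^ 4 + 28 * x ^ 5 - 84 * x ^ 6) ∧
  (∀ T t t' i2 : ZMod (p ^ r), t = p * t' → T * t ^ 2 = 0 → 2 * i2 = 1 →
    T * sq p r (1 + t) = T * (1 + t * i2))

/-- `√(l / l₀)`, `l ≡ l₀ mod p` -/
noncomputable def aa (p r : ℕ) (l0 l : ℤ) : ZMod (p ^ r) :=
  sq p r ((l : ZMod (p ^ r)) * (l0 : ZMod (p ^ r))⁻¹)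

/-- BR: the complete sums `KL` as functions of a product `l h` -/
def S_BR : Prop := ∀ (p r u : ℕ) [NeZero (p ^ r)], p.Prime → p ≠ 2 → 2 ≤ r → 2 * u + 1 ≤ r →
  ∀ Ψ : ZMod (p ^ r) → ℂ, (∀ y z : ZMod (p ^ r), Ψ (y + (p : ZMod (p ^ r)) ^ u * z) = Ψ y) →
  ∀ A L : ZMod (p ^ r), IsUnit A → IsUnit L → ∀ l0 h0 : ℤ, ¬ (p : ℤ) ∣ l0 → ¬ (p : ℤ) ∣ h0 →
  ∃ (ρ : Fin 2 → ℂ) (Y : Fin 2 → ZMod (p ^ r)), (∀ i, ‖ρ i‖ ≤ p ∧ IsUnit (Y i)) ∧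
    ∀ l h : ℤ, (p : ℤ) ∣ l - l0 → (p : ℤ) ∣ h - h0 →
      KL Ψ A (L * ((l * h : ℤ) : ZMod (p ^ r))) = (p : ℂ) ^ (r / 2) *
        ∑ i, ρ i * Ψ (Y i * (aa p r l0 l * aa p r h0 h)) *
          ZMod.stdAddChar (2 * A * Y i * (aa p r l0 l * aa p r h0 h))

/-- the third difference of `h ↦ √(h / h₀)` -/
noncomputable def dif3 (p r : ℕ) (h0 h t1 t2 t3 : ℤ) : ZMod (p ^ r) :=
  aa p r h0 (h + t1 + t2 + t3) - aa p r h0 (h + t1 + t2) - aa p r h0 (h + t1 + t3) -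
    aa p r h0 (h + t2 + t3) + aa p r h0 (h + t1) + aa p r h0 (h + t2) + aa p r h0 (h + t3) -
    aa p r h0 h

/-- the third difference of the Taylor polynomial of `√(1+4x)` is `x₁ x₂ x₃ EE` -/
def EE {R : Type} [CommRing R] (x1 x2 x3 : R) : R :=
  24 - 120 * (x1 + x2 + x3) + 560 * (x1 ^ 2 + x2 ^ 2 + x3 ^ 2) +
    840 * (x1 * x2 + x1 * x3 + x2 * x3) - 2520 * (x1 ^ 3 + x2 ^ 3 + x3 ^ 3) -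
    5040 * (x1 ^ 2 * x2 + x1 ^ 2 * x3 + x2 ^ 2 * x1 + x2 ^ 2 * x3 + x3 ^ 2 * x1 + x3 ^ 2 * x2) -
    7560 * (x1 * x2 * x3)

/-- the Euler operator applied to `EE` -/
def EK {R : Type} [CommRing R] (x1 x2 x3 : R) : R :=
  -(120 * (x1 + x2 + x3)) + 1120 * (x1 ^ 2 + x2 ^ 2 + x3 ^ 2) +
    1680 * (x1 * x2 + x1 * x3 + x2 * x3) - 7560 * (x1 ^ 3 + x2 ^ 3 + x3 ^ 3) -
    15120 * (x1 ^ 2 * x2 + x1 ^ 2 * x3 + x2 ^ 2 * x1 + x2 ^ 2 * x3 + x3 ^ 2 * x1 + x3 ^ 2 * x2) -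
    22680 * (x1 * x2 * x3)

/-- `EE` at `tᵢ / (4h)` -/
noncomputable def eh (p r : ℕ) (t1 t2 t3 h : ℤ) : ZMod (p ^ r) :=
  EE ((t1 : ZMod (p ^ r)) * (4 * (h : ZMod (p ^ r)))⁻¹) (t2 * (4 * (h : ZMod (p ^ r)))⁻¹)
    (t3 * (4 * (h : ZMod (p ^ r)))⁻¹)

/-- `EK` at `tᵢ / (4h)` -/
noncomputable def ek (p r : ℕ) (t1 t2 t3 h : ℤ) : ZMod (p ^ r) :=
  EK ((t1 : ZMod (p ^ r)) * (4 * (h : ZMod (p ^ r)))⁻¹) (t2 * (4 * (h : ZMod (p ^ r)))⁻¹)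
    (t3 * (4 * (h : ZMod (p ^ r)))⁻¹)

/-- TD: the third difference -/
def S_TD : Prop := ∀ (p r a : ℕ), p.Prime → p ≠ 2 → 1 ≤ r → 1 ≤ a → r ≤ 7 * a →
  ∀ h0 h t1 t2 t3 : ℤ, ¬ (p : ℤ) ∣ h0 → (p : ℤ) ∣ h - h0 →
  (p : ℤ) ^ a ∣ t1 → (p : ℤ) ^ a ∣ t2 → (p : ℤ) ^ a ∣ t3 →
  dif3 p r h0 h t1 t2 t3 = ((t1 * t2 * t3 : ℤ) : ZMod (p ^ r)) *
    (aa p r h0 h * ((4 * (h : ZMod (p ^ r)))⁻¹) ^ 3 * eh p r t1 t2 t3 h)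

/-- the phase without its numerator `t₁ t₂ t₃` -/
noncomputable def Lam (p r : ℕ) (l0 h0 t1 t2 t3 l h : ℤ) : ZMod (p ^ r) :=
  aa p r l0 l * (aa p r h0 h * ((4 * (h : ZMod (p ^ r)))⁻¹) ^ 3 * eh p r t1 t2 t3 h)

/-- logarithmic derivative in `h` -/
noncomputable def kap (p r : ℕ) (t1 t2 t3 h : ℤ) : ZMod (p ^ r) :=
  (2 : ZMod (p ^ r))⁻¹ - 3 - ek p r t1 t2 t3 h * (eh p r t1 t2 t3 h)⁻¹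

/-- derivative in `l` -/
noncomputable def psi1 (p r : ℕ) (l0 h0 t1 t2 t3 l h : ℤ) : ZMod (p ^ r) :=
  Lam p r l0 h0 t1 t2 t3 l h * (2 * (l : ZMod (p ^ r)))⁻¹

/-- derivative in `h` -/
noncomputable def psi2 (p r : ℕ) (l0 h0 t1 t2 t3 l h : ℤ) : ZMod (p ^ r) :=
  Lam p r l0 h0 t1 t2 t3 l h * (kap p r t1 t2 t3 h * (h : ZMod (p ^ r))⁻¹)

/-- VAR: linear approximation of the phase -/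
def S_VAR : Prop := ∀ (p r c : ℕ), p.Prime → 5 ≤ p → 1 ≤ r → 1 ≤ c →
  ∀ l0 h0 l h t1 t2 t3 : ℤ, ¬ (p : ℤ) ∣ l0 → ¬ (p : ℤ) ∣ h0 → (p : ℤ) ∣ l - l0 →
  (p : ℤ) ∣ h - h0 → (p : ℤ) ∣ t1 → (p : ℤ) ∣ t2 → (p : ℤ) ∣ t3 →
  ∀ T : ZMod (p ^ r), T * ((p : ZMod (p ^ r)) ^ c) ^ 2 = 0 → ∀ x y : ℤ,
  T * Lam p r l0 h0 t1 t2 t3 (l + (p : ℤ) ^ c * x) (h + (p : ℤ) ^ c * y) =
    T * Lam p r l0 h0 t1 t2 t3 l h + T * (p : ZMod (p ^ r)) ^ c *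
      (psi1 p r l0 h0 t1 t2 t3 l h * x + psi2 p r l0 h0 t1 t2 t3 l h * y)

/-- INJ: the derivatives are units and determine `(l, h)` in its residue class mod `p` -/
def S_INJ : Prop := ∀ (p r : ℕ), p.Prime → 7 ≤ p → 1 ≤ r →
  ∀ l0 h0 t1 t2 t3 : ℤ, ¬ (p : ℤ) ∣ l0 → ¬ (p : ℤ) ∣ h0 →
  (p : ℤ) ∣ t1 → (p : ℤ) ∣ t2 → (p : ℤ) ∣ t3 →
  (∀ l h : ℤ, (p : ℤ) ∣ l - l0 → (p : ℤ) ∣ h - h0 →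
    IsUnit (psi1 p r l0 h0 t1 t2 t3 l h) ∧ IsUnit (psi2 p r l0 h0 t1 t2 t3 l h)) ∧
  (∀ (s : ℕ) (l h l' h' : ℤ), (p : ℤ) ∣ l - l0 → (p : ℤ) ∣ h - h0 → (p : ℤ) ∣ l' - l0 →
    (p : ℤ) ∣ h' - h0 →
    (p : ZMod (p ^ r)) ^ s * psi1 p r l0 h0 t1 t2 t3 l h =
      (p : ZMod (p ^ r)) ^ s * psi1 p r l0 h0 t1 t2 t3 l' h' →
    (p : ZMod (p ^ r)) ^ s * psi2 p r l0 h0 t1 t2 t3 l h =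
      (p : ZMod (p ^ r)) ^ s * psi2 p r l0 h0 t1 t2 t3 l' h' →
    (p : ZMod (p ^ r)) ^ s * ((l - l' : ℤ) : ZMod (p ^ r)) = 0 ∧
      (p : ZMod (p ^ r)) ^ s * ((h - h' : ℤ) : ZMod (p ^ r)) = 0)

/-- LIN: two-dimensional sums of locally linear phases with injective gradient -/
def S_LIN : Prop := ∀ (p r τ : ℕ) [NeZero (p ^ r)], p.Prime → p ≠ 2 → τ + 2 ≤ r →
  ∀ l0 h0 T : ℤ, (p : ℤ) ^ τ ∣ T → ¬ (p : ℤ) ^ (τ + 1) ∣ T →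
  ∀ ph ψ1 ψ2 : ℤ → ℤ → ZMod (p ^ r),
  (∀ l h : ℤ, (p : ℤ) ∣ l - l0 → (p : ℤ) ∣ h - h0 → IsUnit (ψ1 l h) ∧ IsUnit (ψ2 l h)) →
  (∀ c : ℕ, 1 ≤ c → (T : ZMod (p ^ r)) * ((p : ZMod (p ^ r)) ^ c) ^ 2 = 0 →
    ∀ l h : ℤ, (p : ℤ) ∣ l - l0 → (p : ℤ) ∣ h - h0 → ∀ x y : ℤ,
      ph (l + (p : ℤ) ^ c * x) (h + (p : ℤ) ^ c * y) =
        ph l h + (T : ZMod (p ^ r)) * (p : ZMod (p ^ r)) ^ c * (ψ1 l h * x + ψ2 l h * y)) →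
  (∀ (s : ℕ) (l h l' h' : ℤ), (p : ℤ) ∣ l - l0 → (p : ℤ) ∣ h - h0 → (p : ℤ) ∣ l' - l0 →
    (p : ℤ) ∣ h' - h0 → (p : ZMod (p ^ r)) ^ s * ψ1 l h = (p : ZMod (p ^ r)) ^ s * ψ1 l' h' →
    (p : ZMod (p ^ r)) ^ s * ψ2 l h = (p : ZMod (p ^ r)) ^ s * ψ2 l' h' →
    (p : ZMod (p ^ r)) ^ s * ((l - l' : ℤ) : ZMod (p ^ r)) = 0 ∧
      (p : ZMod (p ^ r)) ^ s * ((h - h' : ℤ) : ZMod (p ^ r)) = 0) →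
  ∀ (α β : ℤ) (L K : ℕ),
    ‖∑ l ∈ (Ico α (α + L)).filter (fun l => (p : ℤ) ∣ l - l0),
      ∑ h ∈ (Ico β (β + K)).filter (fun h => (p : ℤ) ∣ h - h0),
        (ZMod.stdAddChar (ph l h) : ℂ)‖ ≤
      (p : ℝ) ^ 2 * (p : ℝ) ^ (r - τ) * (1 + r * Real.log p) ^ 2

/-- differencing -/
noncomputable def DD (D v : ℤ) (F : ℤ → ℂ) (h : ℤ) : ℂ := F (h + D * v) * (starRingEnd ℂ) (F h)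

/-- VDC: three steps of van der Corput's differencing, on average over `i` -/
def S_VDC : Prop := ∀ (ι : Type) (s : Finset ι) (F : ι → ℤ → ℂ) (a : ℤ) (K : ℕ),
  (∀ i h, h ∉ Ico a (a + K) → F i h = 0) → (∀ i h, ‖F i h‖ ≤ 1) →
  ∀ D1 D2 D3 Q1 Q2 Q3 : ℕ, 1 ≤ D1 → 1 ≤ D2 → 1 ≤ D3 → 1 ≤ Q1 → 1 ≤ Q2 → 1 ≤ Q3 →
  D1 * Q1 ≤ K → D2 * Q2 ≤ K → D3 * Q3 ≤ K →
  (∑ i ∈ s, ‖∑ h ∈ Ico a (a + K), F i h‖ ^ 2) ^ 4 ≤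
    131072 * ((s.card : ℝ) ^ 4 * (K : ℝ) ^ 8 *
      (1 / (Q1 : ℝ) ^ 4 + 1 / (Q2 : ℝ) ^ 2 + 1 / (Q3 : ℝ)) +
    (s.card : ℝ) ^ 3 * (K : ℝ) ^ 7 / (Q1 * Q2 * Q3) *
      ∑ v1 ∈ (Ioo (-(Q1 : ℤ)) Q1).filter (· ≠ 0), ∑ v2 ∈ (Ioo (-(Q2 : ℤ)) Q2).filter (· ≠ 0),
        ∑ v3 ∈ (Ioo (-(Q3 : ℤ)) Q3).filter (· ≠ 0),
          ‖∑ i ∈ s, ∑ h ∈ Ico a (a + K), DD D3 v3 (DD D2 v2 (DD D1 v1 (F i))) h‖)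

/-- CMP: completion of incomplete sums -/
def S_CMP : Prop := ∀ K : ℕ, 1 ≤ K → ∃ ω : ℕ → ℝ, (∀ b, 0 ≤ ω b) ∧
  ∑ b ∈ range K, ω b ≤ 3 + Real.log K ∧
  ∀ c : ℕ → ℂ, ∀ J ≤ K, ‖∑ k ∈ range J, c k‖ ≤
    ∑ b ∈ range K, ω b * ‖∑ k ∈ range K, c k * eu ((b : ℝ) * k / K)‖

/-- CNT: few triples whose product is divisible by a high power of `p` -/
def S_CNT : Prop := ∀ (p e : ℕ), p.Prime → ∀ Q1 Q2 Q3 : ℕ,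
  (((((Ioo (-(Q1 : ℤ)) Q1).filter (· ≠ 0)) ×ˢ ((Ioo (-(Q2 : ℤ)) Q2).filter (· ≠ 0)) ×ˢ
    ((Ioo (-(Q3 : ℤ)) Q3).filter (· ≠ 0))).filter
      (fun v : ℤ × ℤ × ℤ => (p : ℤ) ^ e ∣ v.1 * v.2.1 * v.2.2)).card : ℝ) ≤
    8 * (e + 1) ^ 3 * (Q1 * Q2 * Q3) / (p : ℝ) ^ e

end Pool.Agent.Y766.R7
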