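import Pool.Agent.Y766.R7.ZE
import Pool.Agent.Y766.R7.ZE0

/-!
The sums over `n` of `χ(n + p^m l) conj χ(n)`, on average over `l`.
-/

set_option autoImplicit false

namespace Pool.Agent.Y766.R7

open Finset
open Pool.Agent.H442R2 Pool.Agent.H442R2.TSM
open Pool.Agent.Y766
open Pool.Agent.Y766.R3 (eu KL S_KLO S_PHI S_WEY FF FH good_prod)

/-- all the ingredients -/
structure HH : Prop where
  sq : S_SQ
  td : S_TD
  var : S_VAR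
  inj : S_INJ
  lin : S_LIN
  vdc : S_VDC
  cnt : S_CNT
  br : S_BR
  cmp : S_CMP
  klo : S_KLO
  phi : S_PHI
  wey : S_WEY

theorem t_avg (H : HH) {ε : ℝ} (hε : 0 < ε) (hε1 : ε ≤ 1 / 1000) : ∃ C : ℝ, 0 < C ∧
    ∀ p : ℕ, p.Prime → 7 ≤ p → ∀ (ν m : ℕ), 1 ≤ m → m < ν → 19 * ν ≤ 58 * m →
    ∀ χ : DirichletCharacter ℂ (p ^ ν), χ.IsPrimitive →
    ∀ (g : ℝ → ℂ) (B : ℝ), Good B g → ∀ N : ℝ, 0 < N → N ≤ ((p : ℝ) ^ ν) ^ (1 / 2 + ε) →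
    ∑ l ∈ (Ico (1 : ℤ) (1 + (⌊4 * N⌋₊ / p ^ m : ℕ))).filter (fun l => ¬ (p : ℤ) ∣ l),
    ‖∑ n ∈ Icc 1 ⌊4 * N⌋₊, FF χ ((p : ℤ) ^ m * l) (n : ℤ) *
      (g ((n : ℝ) / N + (p : ℝ) ^ m * l / N) * (starRingEnd ℂ) (g ((n : ℝ) / N)))‖ ≤
      (C * (p : ℝ) ^ 50) * B ^ 2 * N * (((p : ℝ) ^ ν) ^ ε) ^ 4 := by
  obtain ⟨C1', hC1', h3'⟩ := T_boundU H.wey H.phi H.klo hε
  obtain ⟨C2', hC2', hms'⟩ := mean_sq H.sq H.td H.var H.inj H.lin H.vdc H.cnt H.br H.klo H.phi hε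
  obtain ⟨C3, hC3, hpoi⟩ := poi_avg
  refine ⟨4 * C1' + C3 * 4 * (3 + 1 / ε) * Real.sqrt C2' * 4 * 4, by positivity, ?_⟩
  intro p hp hp7
  have hp2 : p ≠ 2 := by omega
  have hp0 : (0 : ℝ) < p := by exact_mod_cast hp.pos
  have hp1 : (1 : ℝ) ≤ p := by exact_mod_cast hp.one_le
  have hp1' : (1 : ℝ) < p := by exact_mod_cast hp.one_lt
  have hp4 : (4 : ℝ) ≤ p := by exact_mod_cast (by omega : 4 ≤ p)
  set C1 : ℝ := C1' * (p : ℝ) ^ 50 with hC1d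
  set C2 : ℝ := C2' * (p : ℝ) ^ 7 with hC2d
  have hC1 : 0 < C1 := by positivity
  have hC2 : 0 < C2 := by positivity
  have h3 := h3' p hp hp2
  have hms := hms' p hp hp7
  rw [← hC1d] at h3
  rw [← hC2d] at hms
  set C4 : ℝ := C3 * 4 * (3 + 1 / ε) * Real.sqrt C2 * 4 * (4 * (p : ℝ) ^ 2) with hC4
  have hCC : 4 * C1 + C4 ≤ (4 * C1' + C3 * 4 * (3 + 1 / ε) * Real.sqrt C2' * 4 * 4) * (p : ℝ) ^ 50 := by
    have e1 : Real.sqrt C2 ≤ Real.sqrt C2' * (p : ℝ) ^ 4 := by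
      apply Real.sqrt_le_iff.2
      refine ⟨by positivity, ?_⟩
      rw [mul_pow, Real.sq_sqrt hC2'.le, hC2d, ← pow_mul]
      have : (p : ℝ) ^ 7 ≤ (p : ℝ) ^ (4 * 2) := pow_le_pow_right₀ hp1 (by norm_num)
      gcongr
    have e2 : C4 ≤ C3 * 4 * (3 + 1 / ε) * Real.sqrt C2' * 4 * 4 * (p : ℝ) ^ 50 := by
      calc C4 ≤ C3 * 4 * (3 + 1 / ε) * (Real.sqrt C2' * (p : ℝ) ^ 4) * 4 * (4 * (p : ℝ) ^ 2) := by
            rw [hC4]; gcongr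
        _ = C3 * 4 * (3 + 1 / ε) * Real.sqrt C2' * 4 * 4 * (p : ℝ) ^ 6 := by ring
        _ ≤ _ := by
            have : (p : ℝ) ^ 6 ≤ (p : ℝ) ^ 50 := pow_le_pow_right₀ hp1 (by norm_num)
            gcongr
    rw [hC1d]
    linarith
  intro ν m hm hmν h19 χ hχ g B hg N hN hNle
  refine le_trans ?_ (show (4 * C1 + C4) * B ^ 2 * N * (((p : ℝ) ^ ν) ^ ε) ^ 4 ≤
    ((4 * C1' + C3 * 4 * (3 + 1 / ε) * Real.sqrt C2' * 4 * 4) * (p : ℝ) ^ 50) * B ^ 2 * N *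
    (((p : ℝ) ^ ν) ^ ε) ^ 4 by gcongr)
  have hB : 0 ≤ B := (norm_nonneg _).trans (hg.b0 0)
  set q : ℝ := (p : ℝ) ^ ν with hq
  have hq1 : 1 ≤ q := one_le_pow₀ hp1
  have hq0 : 0 < q := by linarith
  set D : ℝ := q ^ ε with hD
  have hD1 : 1 ≤ D := Real.one_le_rpow hq1 hε.le
  have hD0 : 0 < D := by linarith
  have hN2 : N ≤ q ^ (1 / 2 : ℝ) * D := by
    rw [hD, ← Real.rpow_add hq0]; exact hNle
  set M : ℕ := ⌊4 * N⌋₊ with hM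
  have hM4 : (M : ℝ) ≤ 4 * N := Nat.floor_le (by positivity)
  set Yn : ℕ := M / p ^ m with hYn
  set S : Finset ℤ := (Ico (1 : ℤ) (1 + (Yn : ℕ))).filter (fun l => ¬ (p : ℤ) ∣ l) with hS
  have hYp : (p : ℝ) ^ m * Yn ≤ 4 * N := by
    have h1 : p ^ m * (M / p ^ m) ≤ M := Nat.mul_div_le M (p ^ m)
    calc (p : ℝ) ^ m * Yn = ((p ^ m * (M / p ^ m) : ℕ) : ℝ) := by push_cast; rw [hYn]
      _ ≤ M := by exact_mod_cast h1
      _ ≤ 4 * N := hM4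
  have hScard : (S.card : ℝ) ≤ Yn := by
    have h1 : S.card ≤ (Ico (1 : ℤ) (1 + (Yn : ℕ))).card := card_filter_le _ _
    rw [Int.card_Ico, add_sub_cancel_left, Int.toNat_natCast] at h1
    exact_mod_cast h1
  have hpm1 : 1 ≤ (p : ℝ) ^ m := one_le_pow₀ hp1
  have hfin : ∀ c : ℝ, c ≤ 4 * C1 + C4 → ∀ k : ℕ, k ≤ 4 →
      c * (B ^ 2 * N * D ^ k) ≤ (4 * C1 + C4) * B ^ 2 * N * D ^ 4 := by
    intro c hc k hk
    have : D ^ k ≤ D ^ 4 := pow_le_pow_right₀ hD1 hk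
    calc c * (B ^ 2 * N * D ^ k) ≤ (4 * C1 + C4) * (B ^ 2 * N * D ^ 4) := by gcongr
      _ = _ := by ring
  have hC40 : 0 ≤ C4 := by positivity
  rcases le_or_gt (46 * ν) (139 * m) with h46 | h46
  · -- pointwise bounds
    refine le_trans ?_ (hfin (4 * C1) (by linarith) 3 (by norm_num))
    calc _ ≤ ∑ l ∈ S, C1 * B ^ 2 * (p : ℝ) ^ m * D ^ 3 := by
          refine sum_le_sum fun l hl => ?_
          rw [hS, mem_filter] at hl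
          exact h3 ν m hm hmν h46 χ hχ l hl.2 g B hg N _ hN hNle
      _ = S.card * (C1 * B ^ 2 * (p : ℝ) ^ m * D ^ 3) := by rw [sum_const, nsmul_eq_mul]
      _ ≤ Yn * (C1 * B ^ 2 * (p : ℝ) ^ m * D ^ 3) := by gcongr
      _ = C1 * B ^ 2 * D ^ 3 * ((p : ℝ) ^ m * Yn) := by ring
      _ ≤ C1 * B ^ 2 * D ^ 3 * (4 * N) := by gcongr
      _ = _ := by ring
  obtain ⟨s, hs⟩ : ∃ s, ν = 3 * m + s := ⟨ν - 3 * m, by omega⟩
  have hs1 : 1 ≤ s := by omega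
  have hms19 : 19 * s ≤ m := by omega
  haveI : NeZero p := ⟨hp.ne_zero⟩
  haveI : NeZero (p ^ (ν - m)) := ⟨pow_ne_zero _ hp.ne_zero⟩
  rcases Nat.eq_zero_or_pos Yn with hY0 | hY1
  · have : S = ∅ := by
      rw [hS, hY0]
      simp
    rw [this, sum_empty]
    positivity
  refine le_trans ?_ (hfin C4 (by linarith) 4 le_rfl)
  set j : ℕ := Nat.log p Yn with hj
  have hj1 : p ^ j ≤ Yn := Nat.pow_log_le_self p (by omega)
  have hj2 : Yn < p ^ (j + 1) := Nat.lt_pow_succ_log_self hp.one_lt Yn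
  have hNY : N ≤ (p : ℝ) ^ (m + (j + 1)) := by
    have h1 : M < p ^ m * (Yn + 1) := by
      rw [hYn]
      exact Nat.lt_mul_div_succ M (pow_pos hp.pos m)
    have h2 : 4 * N < M + 1 := Nat.lt_floor_add_one _
    have h3 : (M : ℝ) + 1 ≤ (p : ℝ) ^ m * (Yn + 1) := by exact_mod_cast h1
    have h4 : ((Yn : ℝ) + 1) ≤ (p : ℝ) ^ (j + 1) := by exact_mod_cast hj2
    rw [pow_add]
    have h5 : (p : ℝ) ^ m * (Yn + 1) ≤ (p : ℝ) ^ m * (p : ℝ) ^ (j + 1) := by gcongr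
    nlinarith
  have hJ : 1000 * (m + j) ≤ 1000 + 501 * ν := by
    have h1 : (p : ℝ) ^ ((m + j : ℕ) : ℝ) ≤ (p : ℝ) ^ (1 + (ν : ℝ) * (1 / 2 + ε)) := by
      rw [Real.rpow_natCast, Real.rpow_add hp0, Real.rpow_one, Real.rpow_mul hp0.le,
        Real.rpow_natCast, pow_add]
      have h2 : (p : ℝ) ^ j ≤ Yn := by exact_mod_cast hj1
      calc (p : ℝ) ^ m * (p : ℝ) ^ j ≤ (p : ℝ) ^ m * Yn := by gcongr
        _ ≤ 4 * N := hYp
        _ ≤ p * q ^ (1 / 2 + ε) := by gcongr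
    have h2 := (Real.rpow_le_rpow_left_iff hp1').1 h1
    have h3 : (1000 : ℝ) * ((m + j : ℕ) : ℝ) ≤ 1000 + 501 * (ν : ℝ) := by
      have h4 : (ν : ℝ) * ε ≤ ν * (1 / 1000) := by gcongr
      nlinarith
    exact_mod_cast h3
  set κ : ℕ := (2 * m + 12 * s - j + 3) / 4 with hκ
  have hκ1 : 2 * m + 12 * s - j ≤ 4 * κ := by omega
  have hκ2 : 4 * κ ≤ 2 * m + 12 * s - j + 3 := by omega
  have hK1 : 1 ≤ p ^ κ := Nat.one_le_pow _ _ hp.pos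
  have hM2 := fun (h : ℤ) (b : ℕ) => hms ν m s κ Yn hm hs1 hs (by omega) (by omega) (by omega) hY1
    (by
      calc p ^ (ν - m + 7 * s - 3 * κ + 4 * s) ≤ p ^ (j + κ) := Nat.pow_le_pow_right hp.pos (by omega)
        _ = p ^ j * p ^ κ := pow_add _ _ _
        _ ≤ Yn * p ^ κ := Nat.mul_le_mul_right _ hj1) χ hχ h ((b : ℝ) / (p ^ κ : ℕ))
  set M2 : ℝ := C2 * Yn * ((p : ℝ) ^ κ) ^ 2 * ((p : ℝ) ^ m) ^ 2 * ((p : ℝ) ^ ν) ^ (2 * ε) with hM2d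
  obtain ⟨U, hU1, hU2⟩ := cmp_avg H.cmp S (fun l j => FH (p ^ (ν - m)) (FF χ ((p : ℤ) ^ m * l)) j)
    hK1 (M2 := M2) (fun h b => by
      refine le_trans (le_of_eq ?_) (hM2 h b)
      refine sum_congr rfl fun l _ => ?_
      congr 2
      refine sum_congr rfl fun k _ => ?_
      congr 2
      ring)
  set V : ℝ := (3 + Real.log (p ^ κ : ℕ)) * Real.sqrt (S.card * M2) with hV
  have hlogK : 0 ≤ Real.log ((p ^ κ : ℕ) : ℝ) := Real.log_nonneg (by exact_mod_cast hK1)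
  have hV0 : 0 ≤ V := by positivity
  have hper : ∀ l ∈ S, ∀ n k : ℤ, FF χ ((p : ℤ) ^ m * l) (n + (p ^ (ν - m) : ℕ) * k) =
      FF χ ((p : ℤ) ^ m * l) n := by
    intro l hl
    rw [hS, mem_filter] at hl
    exact (Pool.Agent.Y766.R3.get_data H.phi (u := s) hp hp2 hm hmν (by omega) (by omega) hχ hl.2).1
  have hmain := hpoi (p ^ (ν - m)) ℤ S (fun l => FF χ ((p : ℤ) ^ m * l)) hper (p ^ κ) (by omega) U V hV0
    (fun l _ h J hJ => hU1 l h J hJ) hU2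
    (fun l x => g (x + (p : ℝ) ^ m * l / N) * (starRingEnd ℂ) (g x)) (4 * B ^ 2) (by positivity)
    (fun l _ => good_prod hg _) N hN
  refine hmain.trans ?_
  -- the size of `V`
  have hqε : ((p : ℝ) ^ ν) ^ (2 * ε) = D ^ 2 := by
    rw [hD, ← Real.rpow_natCast (q ^ ε), ← Real.rpow_mul hq0.le]
    congr 1
    push_cast
    ring
  have hsqrt : Real.sqrt (S.card * M2) ≤ Real.sqrt C2 * (Yn * (p : ℝ) ^ κ * (p : ℝ) ^ m * D) := by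
    apply Real.sqrt_le_iff.2
    refine ⟨by positivity, ?_⟩
    rw [mul_pow, Real.sq_sqrt hC2.le]
    calc (S.card : ℝ) * M2 ≤ Yn * M2 := by
          have : 0 ≤ M2 := by positivity
          gcongr
      _ = _ := by rw [hM2d, hqε]; ring
  have hlog : 3 + Real.log ((p ^ κ : ℕ) : ℝ) ≤ (3 + 1 / ε) * D := by
    have h1 : Real.log ((p ^ κ : ℕ) : ℝ) ≤ Real.log q := by
      apply Real.log_le_log (by exact_mod_cast hK1)
      rw [hq]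
      push_cast
      exact pow_le_pow_right₀ hp1 (by omega)
    have h2 : Real.log q ≤ q ^ ε / ε := Real.log_le_rpow_div hq0.le hε
    rw [← hD] at h2
    have h3 : D / ε = 1 / ε * D := by ring
    rw [h3] at h2
    nlinarith
  have hVle : V / ((p ^ κ : ℕ) : ℝ) ≤ (3 + 1 / ε) * Real.sqrt C2 * D ^ 2 * ((p : ℝ) ^ m * Yn) := by
    have hk0 : (0 : ℝ) < ((p ^ κ : ℕ) : ℝ) := by exact_mod_cast hK1
    rw [div_le_iff₀ hk0]
    calc V ≤ ((3 + 1 / ε) * D) * (Real.sqrt C2 * (Yn * (p : ℝ) ^ κ * (p : ℝ) ^ m * D)) := by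
          rw [hV]
          exact mul_le_mul hlog hsqrt (Real.sqrt_nonneg _) (by positivity)
      _ = _ := by push_cast; ring
  -- the size of `K N / Q`
  have hX : ((p ^ κ : ℕ) : ℝ) * N / ((p ^ (ν - m) : ℕ) : ℝ) ≤ p * D := by
    have hr0 : (0 : ℝ) < ((p ^ (ν - m) : ℕ) : ℝ) := by
      exact_mod_cast pow_pos hp.pos _
    rw [div_le_iff₀ hr0]
    refine le_of_pow_le_pow_left₀ (n := 4) (by norm_num) (by positivity) ?_
    push_cast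
    have e1 : ((p : ℝ) ^ κ * N) ^ 4 = (p : ℝ) ^ (4 * κ) * (N ^ 3 * N) := by
      rw [mul_pow, ← pow_mul, mul_comm κ 4]; ring
    have e2 : N ^ 3 ≤ (q ^ (1 / 2 : ℝ) * D) ^ 3 := by gcongr
    have e3 : (q ^ (1 / 2 : ℝ)) ^ 3 = (p : ℝ) ^ (3 * (ν : ℝ) / 2) := by
      rw [hq, ← Real.rpow_natCast, ← Real.rpow_natCast, ← Real.rpow_mul (by positivity),
        ← Real.rpow_mul hp0.le]
      congr 1
      push_cast
      ring
    have e4 : (p : ℝ) ^ (4 * κ) * (p : ℝ) ^ (m + (j + 1)) ≤ (p : ℝ) ^ (3 * m + 12 * s + 4) := by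
      rw [← pow_add]
      exact pow_le_pow_right₀ hp1 (by omega)
    have e5 : (p : ℝ) ^ (3 * (ν : ℝ) / 2) * (p : ℝ) ^ (3 * m + 12 * s + 4) ≤
        (p : ℝ) ^ (4 * (ν - m) + 4) := by
      rw [← Real.rpow_natCast, ← Real.rpow_natCast, ← Real.rpow_add hp0]
      refine Real.rpow_le_rpow_of_exponent_le hp1 ?_
      have h5 : ((4 * (ν - m) + 4 : ℕ) : ℝ) = 8 * m + 4 * s + 4 := by
        have : 4 * (ν - m) + 4 = 8 * m + 4 * s + 4 := by omega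
        rw [this]; push_cast; ring
      rw [h5, hs]
      push_cast
      have : (19 : ℝ) * s ≤ m := by exact_mod_cast hms19
      linarith
    have hD34 : D ^ 3 ≤ D ^ 4 := pow_le_pow_right₀ hD1 (by norm_num)
    rw [e1]
    calc (p : ℝ) ^ (4 * κ) * (N ^ 3 * N) ≤
          (p : ℝ) ^ (4 * κ) * ((q ^ (1 / 2 : ℝ) * D) ^ 3 * (p : ℝ) ^ (m + (j + 1))) := by gcongr
      _ = (q ^ (1 / 2 : ℝ)) ^ 3 * ((p : ℝ) ^ (4 * κ) * (p : ℝ) ^ (m + (j + 1))) * D ^ 3 := by ring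
      _ ≤ (q ^ (1 / 2 : ℝ)) ^ 3 * (p : ℝ) ^ (3 * m + 12 * s + 4) * D ^ 4 := by gcongr
      _ = ((p : ℝ) ^ (3 * (ν : ℝ) / 2) * (p : ℝ) ^ (3 * m + 12 * s + 4)) * D ^ 4 := by rw [e3]
      _ ≤ (p : ℝ) ^ (4 * (ν - m) + 4) * D ^ 4 := by gcongr
      _ = _ := by rw [pow_add, pow_mul']; ring
  have hX2 : (1 + ((p ^ κ : ℕ) : ℝ) * N / ((p ^ (ν - m) : ℕ) : ℝ)) ^ 2 ≤ 4 * (p : ℝ) ^ 2 * D ^ 2 := by
    have h1 : 1 ≤ p * D := by nlinarith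
    have h2 : 1 + ((p ^ κ : ℕ) : ℝ) * N / ((p ^ (ν - m) : ℕ) : ℝ) ≤ 2 * (p * D) := by linarith
    calc _ ≤ (2 * (p * D)) ^ 2 := by gcongr
      _ = _ := by ring
  calc _ ≤ C3 * (4 * B ^ 2) * ((3 + 1 / ε) * Real.sqrt C2 * D ^ 2 * (4 * N)) *
        (4 * (p : ℝ) ^ 2 * D ^ 2) := by
        have hVle' : V / ((p ^ κ : ℕ) : ℝ) ≤ (3 + 1 / ε) * Real.sqrt C2 * D ^ 2 * (4 * N) :=
          hVle.trans (mul_le_mul_of_nonneg_left hYp (by positivity))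
        have hVk0 : 0 ≤ V / ((p ^ κ : ℕ) : ℝ) := by positivity
        gcongr
    _ = _ := by rw [hC4]; ring

end Pool.Agent.Y766.R7
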