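import Pool.Agent.Y766.R7.Stm
import Pool.Agent.Y779.R3.Klo

/-!
The triple difference of the phase functions.
-/

set_option autoImplicit false

namespace Pool.Agent.Y766.R7

open Finset
open Pool.Agent.Y766.R3 (eu KL)

variable {p r : ℕ}

lemma eu_add (x y : ℝ) : eu (x + y) = eu x * eu y := by
  unfold eu
  rw [← Complex.exp_add]
  congr 1
  push_cast
  ring

lemma eu_conj (x : ℝ) : (starRingEnd ℂ) (eu x) = eu (-x) := by
  unfold eu
  rw [← Complex.exp_conj]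
  congr 1
  simp only [map_mul, Complex.conj_I, Complex.conj_ofReal, map_ofNat]
  push_cast
  ring

lemma eu_zero : eu 0 = 1 := by simp [eu]

lemma eu_norm (x : ℝ) : ‖eu x‖ = 1 := by
  unfold eu
  have : (2 * Real.pi * Complex.I * x : ℂ) = ((2 * Real.pi * x : ℝ) : ℂ) * Complex.I := by
    push_cast; ring
  rw [this, Complex.norm_exp_ofReal_mul_I]

lemma sac_conj [NeZero (p ^ r)] (x : ZMod (p ^ r)) :
    (starRingEnd ℂ) (ZMod.stdAddChar x : ℂ) = ZMod.stdAddChar (-x) := by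
  rw [AddChar.map_neg_eq_conj]

lemma unit_cls (hp : p.Prime) {l0 l : ℤ} (h0 : ¬ (p : ℤ) ∣ l0) (h : (p : ℤ) ∣ l - l0) :
    IsUnit (l : ZMod (p ^ r)) := by
  refine Pool.Agent.Y779.R3.unit_int hp fun h1 => h0 ?_
  have := dvd_sub h1 h
  simpa using this

/-- shifting `h` by a multiple of `p^a` -/
lemma aa_shift (hsq : S_SQ) (hp : p.Prime) (hp2 : p ≠ 2) (hr : 1 ≤ r) {a : ℕ} (ha : 1 ≤ a)
    {h0 h t : ℤ} (hh0 : ¬ (p : ℤ) ∣ h0) (hh : (p : ℤ) ∣ h - h0) (ht : (p : ℤ) ^ a ∣ t) :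
    ∃ z : ZMod (p ^ r), aa p r h0 (h + t) = aa p r h0 h + (p : ZMod (p ^ r)) ^ a * z := by
  obtain ⟨t', rfl⟩ := ht
  have hu : IsUnit (h : ZMod (p ^ r)) := unit_cls hp hh0 hh
  obtain ⟨z, hz⟩ := (hsq p r hp hp2 hr).2.1 a ((t' : ZMod (p ^ r)) * (h : ZMod (p ^ r))⁻¹) ha
  refine ⟨aa p r h0 h * z, ?_⟩
  have e1 : ((h + (p : ℤ) ^ a * t' : ℤ) : ZMod (p ^ r)) * (h0 : ZMod (p ^ r))⁻¹ =
      ((h : ZMod (p ^ r)) * (h0 : ZMod (p ^ r))⁻¹) *
        (1 + (p : ZMod (p ^ r)) ^ a * ((t' : ZMod (p ^ r)) * (h : ZMod (p ^ r))⁻¹)) := by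
    have h1 : (h : ZMod (p ^ r)) * (h : ZMod (p ^ r))⁻¹ = 1 := ZMod.mul_inv_of_unit _ hu
    push_cast
    linear_combination (-(p : ZMod (p ^ r)) ^ a * t' * (h0 : ZMod (p ^ r))⁻¹) * h1
  unfold aa at *
  rw [e1]
  unfold sq at *
  rw [mul_pow, hz]
  ring

/-- the functions to which van der Corput's method is applied -/
noncomputable def Fn (p r : ℕ) [NeZero (p ^ r)] (l0 h0 : ℤ) (Ψ : ZMod (p ^ r) → ℂ)
    (Y C : ZMod (p ^ r)) (γ : ℤ → ℝ) (β : ℤ) (K : ℕ) (l h : ℤ) : ℂ :=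
  if h ∈ Ico β (β + K) ∧ (p : ℤ) ∣ h - h0 ∧ (p : ℤ) ∣ l - l0 then
    Ψ (Y * (aa p r l0 l * aa p r h0 h)) * ZMod.stdAddChar (C * (aa p r l0 l * aa p r h0 h)) *
      eu (γ l * h) else 0

lemma Fn_norm [NeZero (p ^ r)] {l0 h0 : ℤ} {Ψ : ZMod (p ^ r) → ℂ} (hΨ : ∀ y, ‖Ψ y‖ = 1)
    (Y C : ZMod (p ^ r)) (γ : ℤ → ℝ) (β : ℤ) (K : ℕ) (l h : ℤ) :
    ‖Fn p r l0 h0 Ψ Y C γ β K l h‖ ≤ 1 := by
  unfold Fn
  split_ifs
  · rw [norm_mul, norm_mul, hΨ, AddChar.norm_apply, eu_norm]; norm_num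
  · simp

/-- the triple difference -/
lemma triple (hsq : S_SQ) [NeZero (p ^ r)] (hp : p.Prime) (hp2 : p ≠ 2) (hr : 1 ≤ r) {a u : ℕ}
    (ha : 1 ≤ a) (hua : u ≤ a) {l0 h0 : ℤ} (hh0 : ¬ (p : ℤ) ∣ h0)
    {Ψ : ZMod (p ^ r) → ℂ} (hΨ : ∀ y, ‖Ψ y‖ = 1)
    (hΨ2 : ∀ y z : ZMod (p ^ r), Ψ (y + (p : ZMod (p ^ r)) ^ u * z) = Ψ y)
    (Y C : ZMod (p ^ r)) (γ : ℤ → ℝ) (β : ℤ) (K : ℕ) (D1 D2 D3 : ℕ) (v1 v2 v3 l h : ℤ)
    (h1 : (p : ℤ) ^ a ∣ D1 * v1) (h2 : (p : ℤ) ^ a ∣ D2 * v2) (h3 : (p : ℤ) ^ a ∣ D3 * v3)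
    (hl : (p : ℤ) ∣ l - l0) :
    DD D3 v3 (DD D2 v2 (DD D1 v1 (Fn p r l0 h0 Ψ Y C γ β K l))) h =
      if β ≤ h + (min 0 (D1 * v1) + min 0 (D2 * v2) + min 0 (D3 * v3)) ∧
        h + (max 0 (D1 * v1) + max 0 (D2 * v2) + max 0 (D3 * v3)) < β + K ∧
        (p : ℤ) ∣ h - h0 then
        ZMod.stdAddChar (C * (aa p r l0 l * dif3 p r h0 h (D1 * v1) (D2 * v2) (D3 * v3)))
      else 0 := by
  set t1 : ℤ := D1 * v1 with ht1
  set t2 : ℤ := D2 * v2 with ht2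
  set t3 : ℤ := D3 * v3 with ht3
  have hpa : ∀ t : ℤ, (p : ℤ) ^ a ∣ t → (p : ℤ) ∣ t := fun t h => (dvd_pow_self _ (by omega)).trans h
  have q1 := hpa _ h1
  have q2 := hpa _ h2
  have q3 := hpa _ h3
  have hDD : DD D3 v3 (DD D2 v2 (DD D1 v1 (Fn p r l0 h0 Ψ Y C γ β K l))) h =
      (Fn p r l0 h0 Ψ Y C γ β K l (h + t1 + t2 + t3) * (starRingEnd ℂ) (Fn p r l0 h0 Ψ Y C γ β K l (h + t2 + t3)) *
        ((starRingEnd ℂ) (Fn p r l0 h0 Ψ Y C γ β K l (h + t1 + t3)) * Fn p r l0 h0 Ψ Y C γ β K l (h + t3))) *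
      ((starRingEnd ℂ) (Fn p r l0 h0 Ψ Y C γ β K l (h + t1 + t2)) * Fn p r l0 h0 Ψ Y C γ β K l (h + t2) *
        (Fn p r l0 h0 Ψ Y C γ β K l (h + t1) * (starRingEnd ℂ) (Fn p r l0 h0 Ψ Y C γ β K l h))) := by
    unfold DD
    rw [← ht1, ← ht2, ← ht3]
    simp only [map_mul, Complex.conj_conj]
    have a1 : h + t3 + t2 + t1 = h + t1 + t2 + t3 := by ring
    have a2 : h + t3 + t2 = h + t2 + t3 := by ring
    have a3 : h + t3 + t1 = h + t1 + t3 := by ring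
    have a4 : h + t2 + t1 = h + t1 + t2 := by ring
    rw [a1, a2, a3, a4]
  rw [hDD]
  by_cases hc : β ≤ h + (min 0 t1 + min 0 t2 + min 0 t3) ∧
        h + (max 0 t1 + max 0 t2 + max 0 t3) < β + K ∧ (p : ℤ) ∣ h - h0
  · rw [if_pos hc]
    obtain ⟨c1, c2, c3⟩ := hc
    have hval : ∀ t : ℤ, (p : ℤ) ^ a ∣ t → min 0 t1 + min 0 t2 + min 0 t3 ≤ t →
        t ≤ max 0 t1 + max 0 t2 + max 0 t3 →
        Fn p r l0 h0 Ψ Y C γ β K l (h + t) = Ψ (Y * (aa p r l0 l * aa p r h0 h)) *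
          ZMod.stdAddChar (C * (aa p r l0 l * aa p r h0 (h + t))) * eu (γ l * h + γ l * t) := by
      intro t ht hm hM
      unfold Fn
      have hmem : h + t ∈ Ico β (β + K) ∧ (p : ℤ) ∣ h + t - h0 ∧ (p : ℤ) ∣ l - l0 := by
        refine ⟨mem_Ico.2 ⟨by omega, by omega⟩, ?_, hl⟩
        have : h + t - h0 = (h - h0) + t := by ring
        rw [this]
        exact dvd_add c3 (hpa t ht)
      rw [if_pos hmem]
      obtain ⟨z, hz⟩ := aa_shift hsq hp hp2 hr ha hh0 c3 ht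
      have e1 : Ψ (Y * (aa p r l0 l * aa p r h0 (h + t))) = Ψ (Y * (aa p r l0 l * aa p r h0 h)) := by
        have e2 : (p : ZMod (p ^ r)) ^ a = (p : ZMod (p ^ r)) ^ u * (p : ZMod (p ^ r)) ^ (a - u) := by
          rw [← pow_add]; congr 1; omega
        rw [hz, e2]
        have e3 : Y * (aa p r l0 l * (aa p r h0 h + (p : ZMod (p ^ r)) ^ u * (p : ZMod (p ^ r)) ^ (a - u) * z)) =
            Y * (aa p r l0 l * aa p r h0 h) + (p : ZMod (p ^ r)) ^ u *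
              (Y * aa p r l0 l * (p : ZMod (p ^ r)) ^ (a - u) * z) := by ring
        rw [e3, hΨ2]
      rw [e1]
      congr 2
      push_cast
      ring
    have d12 : (p : ℤ) ^ a ∣ t1 + t2 := dvd_add h1 h2
    have d13 : (p : ℤ) ^ a ∣ t1 + t3 := dvd_add h1 h3
    have d23 : (p : ℤ) ^ a ∣ t2 + t3 := dvd_add h2 h3
    have d123 : (p : ℤ) ^ a ∣ t1 + t2 + t3 := dvd_add d12 h3
    have f123 := hval (t1 + t2 + t3) d123 (by omega) (by omega)
    have f12 := hval (t1 + t2) d12 (by omega) (by omega)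
    have f13 := hval (t1 + t3) d13 (by omega) (by omega)
    have f23 := hval (t2 + t3) d23 (by omega) (by omega)
    have f1 := hval t1 h1 (by omega) (by omega)
    have f2 := hval t2 h2 (by omega) (by omega)
    have f3 := hval t3 h3 (by omega) (by omega)
    have f0 := hval 0 (dvd_zero _) (by omega) (by omega)
    rw [add_zero] at f0
    rw [← add_assoc, ← add_assoc] at f123
    rw [← add_assoc] at f12 f13 f23
    rw [f123, f12, f13, f23, f1, f2, f3, f0]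
    set P : ℂ := Ψ (Y * (aa p r l0 l * aa p r h0 h)) with hP
    have hPP : P * (starRingEnd ℂ) P = 1 := by
      rw [Complex.mul_conj', hΨ]; norm_num
    simp only [map_mul, eu_conj, sac_conj]
    set A := aa p r l0 l with hA
    have e4 : (ZMod.stdAddChar (C * (A * dif3 p r h0 h t1 t2 t3)) : ℂ) =
        ZMod.stdAddChar (C * (A * aa p r h0 (h + t1 + t2 + t3))) *
        ZMod.stdAddChar (-(C * (A * aa p r h0 (h + t2 + t3)))) *
        (ZMod.stdAddChar (-(C * (A * aa p r h0 (h + t1 + t3)))) *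
        ZMod.stdAddChar (C * (A * aa p r h0 (h + t3)))) *
        (ZMod.stdAddChar (-(C * (A * aa p r h0 (h + t1 + t2)))) *
        ZMod.stdAddChar (C * (A * aa p r h0 (h + t2))) *
        (ZMod.stdAddChar (C * (A * aa p r h0 (h + t1))) *
        ZMod.stdAddChar (-(C * (A * aa p r h0 h))))) := by
      simp only [← AddChar.map_add_eq_mul]
      congr 1
      unfold dif3
      ring
    have e5 : eu (γ l * h + γ l * (t1 + t2 + t3 : ℤ)) * eu (-(γ l * h + γ l * (t2 + t3 : ℤ))) *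
        (eu (-(γ l * h + γ l * (t1 + t3 : ℤ))) * eu (γ l * h + γ l * t3)) *
        (eu (-(γ l * h + γ l * (t1 + t2 : ℤ))) * eu (γ l * h + γ l * t2) *
        (eu (γ l * h + γ l * t1) * eu (-(γ l * h + γ l * (0 : ℤ))))) = 1 := by
      simp only [← eu_add]
      rw [← eu_zero]
      congr 1
      push_cast
      ring
    rw [e4]
    calc _ = (P * (starRingEnd ℂ) P) ^ 4 * (ZMod.stdAddChar (C * (A * aa p r h0 (h + t1 + t2 + t3))) *
        ZMod.stdAddChar (-(C * (A * aa p r h0 (h + t2 + t3)))) *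
        (ZMod.stdAddChar (-(C * (A * aa p r h0 (h + t1 + t3)))) *
        ZMod.stdAddChar (C * (A * aa p r h0 (h + t3)))) *
        (ZMod.stdAddChar (-(C * (A * aa p r h0 (h + t1 + t2)))) *
        ZMod.stdAddChar (C * (A * aa p r h0 (h + t2))) *
        (ZMod.stdAddChar (C * (A * aa p r h0 (h + t1))) *
        ZMod.stdAddChar (-(C * (A * aa p r h0 h)))))) *
        (eu (γ l * h + γ l * (t1 + t2 + t3 : ℤ)) * eu (-(γ l * h + γ l * (t2 + t3 : ℤ))) *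
        (eu (-(γ l * h + γ l * (t1 + t3 : ℤ))) * eu (γ l * h + γ l * t3)) *
        (eu (-(γ l * h + γ l * (t1 + t2 : ℤ))) * eu (γ l * h + γ l * t2) *
        (eu (γ l * h + γ l * t1) * eu (-(γ l * h + γ l * (0 : ℤ)))))) := by
          push_cast
          ring
      _ = _ := by rw [hPP, e5]; ring
  · rw [if_neg hc]
    have hz : ∀ x : ℤ, ¬ (x ∈ Ico β (β + K) ∧ (p : ℤ) ∣ x - h0 ∧ (p : ℤ) ∣ l - l0) →
        Fn p r l0 h0 Ψ Y C γ β K l x = 0 := fun x hx => by unfold Fn; rw [if_neg hx]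
    by_cases hph : (p : ℤ) ∣ h - h0
    · -- one of the eight points is outside
      have hout : ¬ (h + t1 + t2 + t3 ∈ Ico β (β + K)) ∨ ¬ (h + t2 + t3 ∈ Ico β (β + K)) ∨
          ¬ (h + t1 + t3 ∈ Ico β (β + K)) ∨ ¬ (h + t3 ∈ Ico β (β + K)) ∨
          ¬ (h + t1 + t2 ∈ Ico β (β + K)) ∨ ¬ (h + t2 ∈ Ico β (β + K)) ∨
          ¬ (h + t1 ∈ Ico β (β + K)) ∨ ¬ (h ∈ Ico β (β + K)) := by
        by_contra hcon
        push Not at hcon
        simp only [mem_Ico] at hcon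
        apply hc
        refine ⟨?_, ?_, hph⟩ <;>
        rcases le_total 0 t1 with s1 | s1 <;> rcases le_total 0 t2 with s2 | s2 <;>
          rcases le_total 0 t3 with s3 | s3 <;>
          simp only [min_eq_left, min_eq_right, max_eq_left, max_eq_right, s1, s2, s3] <;> omega
      rcases hout with h' | h' | h' | h' | h' | h' | h' | h' <;>
      · rw [hz _ (fun hh => h' hh.1)]
        simp
    · rw [hz h (fun hh => hph hh.2.1)]
      simp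

end Pool.Agent.Y766.R7
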