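import Pool.Agent.Y766.R7.ZA

/-!
The mean square over `l` of the sums over `h`, fourth power form.
-/

set_option autoImplicit false

namespace Pool.Agent.Y766.R7

open Finset
open Pool.Agent.Y766.R3 (eu KL)

variable {p r : ℕ}

/-- one two-dimensional sum -/
lemma one_v (hsq : S_SQ) (htd : S_TD) (hvar : S_VAR) (hinj : S_INJ) (hlin : S_LIN)
    [NeZero (p ^ r)] (hp : p.Prime) (hp7 : 7 ≤ p) {a τ : ℕ} (ha : 1 ≤ a)
    (hra : r ≤ 7 * a) {l0 h0 : ℤ} (hl0 : ¬ (p : ℤ) ∣ l0) (hh0 : ¬ (p : ℤ) ∣ h0)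
    {C : ZMod (p ^ r)} (hC : IsUnit C) {t1 t2 t3 : ℤ} (h1 : (p : ℤ) ^ a ∣ t1)
    (h2 : (p : ℤ) ^ a ∣ t2) (h3 : (p : ℤ) ^ a ∣ t3) (hτ : (p : ℤ) ^ τ ∣ t1 * t2 * t3)
    (hτ' : ¬ (p : ℤ) ^ (τ + 1) ∣ t1 * t2 * t3) (hτr : τ + 2 ≤ r) (α β : ℤ) (L K : ℕ) :
    ‖∑ l ∈ (Ico α (α + L)).filter (fun l => (p : ℤ) ∣ l - l0),
      ∑ h ∈ (Ico β (β + K)).filter (fun h => (p : ℤ) ∣ h - h0),
        (ZMod.stdAddChar (C * (aa p r l0 l * dif3 p r h0 h t1 t2 t3)) : ℂ)‖ ≤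
      (p : ℝ) ^ 2 * (p : ℝ) ^ (r - τ) * (1 + r * Real.log p) ^ 2 := by
  have hp2 : p ≠ 2 := by omega
  have hr1 : 1 ≤ r := by omega
  have hpa : ∀ t : ℤ, (p : ℤ) ^ a ∣ t → (p : ℤ) ∣ t := fun t h => (dvd_pow_self _ (by omega)).trans h
  obtain ⟨i1, i2⟩ := hinj p r hp hp7 hr1 l0 h0 t1 t2 t3 hl0 hh0 (hpa _ h1) (hpa _ h2) (hpa _ h3)
  have key := hlin p r τ hp hp2 hτr l0 h0 (t1 * t2 * t3) hτ hτ'
    (fun l h => C * (((t1 * t2 * t3 : ℤ) : ZMod (p ^ r)) * Lam p r l0 h0 t1 t2 t3 l h))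
    (fun l h => C * psi1 p r l0 h0 t1 t2 t3 l h) (fun l h => C * psi2 p r l0 h0 t1 t2 t3 l h)
    (fun l h hl hh => ⟨hC.mul (i1 l h hl hh).1, hC.mul (i1 l h hl hh).2⟩)
    (fun c hc hT l h hl hh x y => by
      have := hvar p r c hp (by omega) hr1 hc l0 h0 l h t1 t2 t3 hl0 hh0 hl hh (hpa _ h1) (hpa _ h2)
        (hpa _ h3) _ hT x y
      rw [this]
      ring)
    (fun s l h l' h' hl hh hl' hh' e1 e2 => by
      refine i2 s l h l' h' hl hh hl' hh' ?_ ?_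
      · apply hC.mul_left_cancel
        linear_combination e1
      · apply hC.mul_left_cancel
        linear_combination e2) α β L K
  refine le_trans (le_of_eq ?_) key
  congr 1
  refine sum_congr rfl fun l _ => sum_congr rfl fun h hh => ?_
  rw [mem_filter] at hh
  rw [htd p r a hp hp2 hr1 ha hra h0 h t1 t2 t3 hh0 hh.2 h1 h2 h3]
  congr 1
  unfold Lam
  ring

lemma card_nz (Q : ℕ) : (((Ioo (-(Q : ℤ)) Q).filter (· ≠ 0)).card : ℝ) ≤ 2 * Q := by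
  have h1 : ((Ioo (-(Q : ℤ)) Q).filter (· ≠ 0)).card ≤ (Ioo (-(Q : ℤ)) Q).card := card_filter_le _ _
  rw [Int.card_Ioo] at h1
  have h2 : ((Ioo (-(Q : ℤ)) Q).filter (· ≠ 0)).card ≤ 2 * Q := by omega
  exact_mod_cast h2

theorem Z4 (hsq : S_SQ) (htd : S_TD) (hvar : S_VAR) (hinj : S_INJ) (hlin : S_LIN) (hvdc : S_VDC)
    (hcnt : S_CNT) [NeZero (p ^ r)] (hp : p.Prime) (hp7 : 7 ≤ p) {u κ s Yn : ℕ}
    (hκ : 4 * s + 1 ≤ κ) (hu : u ≤ κ - 4 * s) (hra : r ≤ 7 * (κ - 4 * s)) (hB : 3 * κ ≤ r + 3 * s)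
    (hs : 1 ≤ s) (hY : 1 ≤ Yn) (hA : p ^ (r + 7 * s - 3 * κ + 4 * s) ≤ Yn * p ^ κ)
    {l0 h0 : ℤ} (hl0 : ¬ (p : ℤ) ∣ l0) (hh0 : ¬ (p : ℤ) ∣ h0)
    {Ψ : ZMod (p ^ r) → ℂ} (hΨ : ∀ y, ‖Ψ y‖ = 1)
    (hΨ2 : ∀ y z : ZMod (p ^ r), Ψ (y + (p : ZMod (p ^ r)) ^ u * z) = Ψ y)
    (Y : ZMod (p ^ r)) {C : ZMod (p ^ r)} (hC : IsUnit C) (γ : ℤ → ℝ) (β : ℤ) :
    (∑ l ∈ Ico (1 : ℤ) (1 + Yn), ‖∑ h ∈ Ico β (β + (p ^ κ : ℕ)),
      Fn p r l0 h0 Ψ Y C γ β (p ^ κ) l h‖ ^ 2) ^ 4 ≤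
      131072 * (3 + 8 * (p : ℝ) ^ 2 + 8 * p) * ((Yn : ℝ) ^ 4 * ((p : ℝ) ^ κ) ^ 8 / (p : ℝ) ^ (4 * s)) *
        ((1 + r * Real.log p) ^ 2 * (1 + r) ^ 3) := by
  classical
  have hp2 : p ≠ 2 := by omega
  have hp0 : (0 : ℝ) < p := by exact_mod_cast hp.pos
  have hp1 : (1 : ℝ) ≤ p := by exact_mod_cast hp.one_le
  have hr1 : 1 ≤ r := by omega
  haveI := Fact.mk hp
  set S : Finset ℤ := (Ico (1 : ℤ) (1 + Yn)).filter (fun l => (p : ℤ) ∣ l - l0) with hS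
  have hScard : (S.card : ℝ) ≤ Yn := by
    have h1 : S.card ≤ (Ico (1 : ℤ) (1 + Yn)).card := card_filter_le _ _
    rw [Int.card_Ico] at h1
    have h2 : S.card ≤ Yn := by omega
    exact_mod_cast h2
  have hrestr : ∑ l ∈ Ico (1 : ℤ) (1 + Yn), ‖∑ h ∈ Ico β (β + (p ^ κ : ℕ)),
      Fn p r l0 h0 Ψ Y C γ β (p ^ κ) l h‖ ^ 2 =
      ∑ l ∈ S, ‖∑ h ∈ Ico β (β + (p ^ κ : ℕ)), Fn p r l0 h0 Ψ Y C γ β (p ^ κ) l h‖ ^ 2 := by
    rw [hS, sum_filter]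
    refine sum_congr rfl fun l _ => ?_
    by_cases hl : (p : ℤ) ∣ l - l0
    · rw [if_pos hl]
    · rw [if_neg hl]
      have : ∑ h ∈ Ico β (β + (p ^ κ : ℕ)), Fn p r l0 h0 Ψ Y C γ β (p ^ κ) l h = 0 := by
        refine sum_eq_zero fun h _ => ?_
        unfold Fn
        rw [if_neg (fun hh => hl hh.2.2)]
      rw [this]; simp
  rw [hrestr]
  set K : ℕ := p ^ κ with hK
  have hK1 : (1 : ℝ) ≤ K := by
    rw [hK]; exact_mod_cast Nat.one_le_pow _ _ hp.pos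
  set e : ℕ := r + 7 * s - 3 * κ - 1 with he
  have hpow : ∀ i, 1 ≤ p ^ i := fun i => Nat.one_le_pow _ _ hp.pos
  have hV := hvdc ℤ S (fun l h => Fn p r l0 h0 Ψ Y C γ β K l h) β K
    (fun i h hh => by
      show Fn p r l0 h0 Ψ Y C γ β K i h = 0
      unfold Fn
      rw [if_neg (fun hh' => hh hh'.1)])
    (fun i h => Fn_norm hΨ Y C γ β K i h)
    (p ^ (κ - s)) (p ^ (κ - 2 * s)) (p ^ (κ - 4 * s)) (p ^ s) (p ^ (2 * s)) (p ^ (4 * s))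
    (hpow _) (hpow _) (hpow _) (hpow _) (hpow _) (hpow _)
    (by rw [← pow_add, hK]; exact Nat.pow_le_pow_right hp.pos (by omega))
    (by rw [← pow_add, hK]; exact Nat.pow_le_pow_right hp.pos (by omega))
    (by rw [← pow_add, hK]; exact Nat.pow_le_pow_right hp.pos (by omega))
  refine hV.trans ?_
  clear hV
  set LG : ℝ := 1 + r * Real.log p with hLG
  have hLG1 : 1 ≤ LG := by
    have : 0 ≤ (r : ℝ) * Real.log p := by
      have := Real.log_nonneg hp1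
      positivity
    rw [hLG]; linarith
  set ρ : ℕ := r + 7 * s - 3 * κ with hρ
  set B1 : ℝ := (p : ℝ) ^ 2 * (p : ℝ) ^ ρ * LG ^ 2 with hB1
  have hB10 : 0 ≤ B1 := by positivity
  -- pointwise bound
  have hpt : ∀ v1 v2 v3 : ℤ, v1 ≠ 0 → v2 ≠ 0 → v3 ≠ 0 →
      ‖∑ l ∈ S, ∑ h ∈ Ico β (β + (K : ℤ)), DD ((p ^ (κ - 4 * s) : ℕ) : ℤ) v3
        (DD ((p ^ (κ - 2 * s) : ℕ) : ℤ) v2 (DD ((p ^ (κ - s) : ℕ) : ℤ) v1
          (Fn p r l0 h0 Ψ Y C γ β K l))) h‖ ≤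
      B1 + if (p : ℤ) ^ e ∣ v1 * v2 * v3 then (Yn : ℝ) * K else 0 := by
    intro v1 v2 v3 hv1 hv2 hv3
    set t1 : ℤ := ((p ^ (κ - s) : ℕ) : ℤ) * v1 with ht1
    set t2 : ℤ := ((p ^ (κ - 2 * s) : ℕ) : ℤ) * v2 with ht2
    set t3 : ℤ := ((p ^ (κ - 4 * s) : ℕ) : ℤ) * v3 with ht3
    have d1 : (p : ℤ) ^ (κ - 4 * s) ∣ t1 := by
      rw [ht1]; push_cast
      exact Dvd.dvd.mul_right (pow_dvd_pow _ (by omega)) _
    have d2 : (p : ℤ) ^ (κ - 4 * s) ∣ t2 := by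
      rw [ht2]; push_cast
      exact Dvd.dvd.mul_right (pow_dvd_pow _ (by omega)) _
    have d3 : (p : ℤ) ^ (κ - 4 * s) ∣ t3 := by
      rw [ht3]; push_cast
      exact Dvd.dvd.mul_right (pow_dvd_pow _ (by omega)) _
    have hT : t1 * t2 * t3 = (p : ℤ) ^ (3 * κ - 7 * s) * (v1 * v2 * v3) := by
      rw [ht1, ht2, ht3]
      have e1 : 3 * κ - 7 * s = (κ - s) + (κ - 2 * s) + (κ - 4 * s) := by omega
      rw [e1, pow_add, pow_add]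
      push_cast
      ring
    have hT0 : t1 * t2 * t3 ≠ 0 := by
      rw [hT]
      have : (p : ℤ) ≠ 0 := by exact_mod_cast hp.ne_zero
      positivity
    have htr : ∀ l ∈ S, ∀ h, DD ((p ^ (κ - 4 * s) : ℕ) : ℤ) v3
        (DD ((p ^ (κ - 2 * s) : ℕ) : ℤ) v2 (DD ((p ^ (κ - s) : ℕ) : ℤ) v1
          (Fn p r l0 h0 Ψ Y C γ β K l))) h =
        if β ≤ h + (min 0 t1 + min 0 t2 + min 0 t3) ∧
        h + (max 0 t1 + max 0 t2 + max 0 t3) < β + K ∧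
        (p : ℤ) ∣ h - h0 then
        (ZMod.stdAddChar (C * (aa p r l0 l * dif3 p r h0 h t1 t2 t3)) : ℂ) else 0 := by
      intro l hl h
      rw [hS, mem_filter] at hl
      exact triple hsq hp hp2 hr1 (a := κ - 4 * s) (by omega) hu hh0 hΨ hΨ2 Y C γ β K _ _ _ v1 v2 v3
        l h d1 d2 d3 hl.2
    set τ := padicValInt p (t1 * t2 * t3) with hτ
    have hτd : ∀ n, (p : ℤ) ^ n ∣ t1 * t2 * t3 ↔ n ≤ τ := by
      intro n
      rw [padicValInt_dvd_iff]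
      constructor
      · rintro (h | h)
        · exact absurd h hT0
        · exact h
      · intro h; exact Or.inr h
    by_cases hτr : τ + 2 ≤ r
    · have hτ1 : 3 * κ - 7 * s ≤ τ := (hτd _).1 (by rw [hT]; exact Dvd.intro _ rfl)
      set m : ℤ := min 0 t1 + min 0 t2 + min 0 t3 with hm
      set M : ℤ := max 0 t1 + max 0 t2 + max 0 t3 with hM
      have hm0 : m ≤ 0 := by omega
      have hM0 : 0 ≤ M := by omega
      have e2 : ∑ l ∈ S, ∑ h ∈ Ico β (β + (K : ℤ)), DD ((p ^ (κ - 4 * s) : ℕ) : ℤ) v3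
        (DD ((p ^ (κ - 2 * s) : ℕ) : ℤ) v2 (DD ((p ^ (κ - s) : ℕ) : ℤ) v1
          (Fn p r l0 h0 Ψ Y C γ β K l))) h =
          ∑ l ∈ (Ico (1 : ℤ) (1 + Yn)).filter (fun l => (p : ℤ) ∣ l - l0),
            ∑ h ∈ (Ico (β - m) (β - m + ((K - M + m).toNat : ℕ))).filter (fun h => (p : ℤ) ∣ h - h0),
            (ZMod.stdAddChar (C * (aa p r l0 l * dif3 p r h0 h t1 t2 t3)) : ℂ) := by
        refine sum_congr hS fun l hl => ?_
        rw [sum_congr rfl (fun h _ => htr l (by rw [hS]; exact hl) h), ← sum_filter]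
        refine sum_congr ?_ fun _ _ => rfl
        ext h
        simp only [mem_filter, mem_Ico]
        constructor
        · rintro ⟨⟨c1, c2⟩, c3, c4, c5⟩
          refine ⟨⟨by omega, ?_⟩, c5⟩
          have : ((K - M + m).toNat : ℤ) = K - M + m := Int.toNat_of_nonneg (by omega)
          rw [this]; omega
        · rintro ⟨⟨c1, c2⟩, c5⟩
          have hpos : 0 ≤ K - M + m := by
            by_contra hneg
            have : (K - M + m).toNat = 0 := Int.toNat_of_nonpos (by omega)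
            rw [this] at c2
            push_cast at c2
            omega
          rw [Int.toNat_of_nonneg hpos] at c2
          exact ⟨⟨by omega, by omega⟩, by omega, by omega, c5⟩
      rw [e2]
      have h1 := one_v hsq htd hvar hinj hlin hp hp7 (a := κ - 4 * s) (τ := τ) (by omega) hra hl0 hh0 hC
        d1 d2 d3 ((hτd _).2 le_rfl) (fun h => by have := (hτd _).1 h; omega) hτr 1 (β - m) Yn
        (K - M + m).toNat
      refine h1.trans ?_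
      have h2 : (p : ℝ) ^ (r - τ) ≤ (p : ℝ) ^ ρ := pow_le_pow_right₀ hp1 (by omega)
      have h3 : (0 : ℝ) ≤ if (p : ℤ) ^ e ∣ v1 * v2 * v3 then (Yn : ℝ) * K else 0 := by
        split_ifs <;> positivity
      calc _ ≤ (p : ℝ) ^ 2 * (p : ℝ) ^ ρ * LG ^ 2 := by gcongr
        _ ≤ _ := by rw [hB1]; linarith
    · have hdiv : (p : ℤ) ^ e ∣ v1 * v2 * v3 := by
        have h1 : (p : ℤ) ^ (r - 1) ∣ t1 * t2 * t3 := (hτd _).2 (by omega)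
        rw [hT] at h1
        have h2 : r - 1 = (3 * κ - 7 * s) + e := by omega
        rw [h2, pow_add] at h1
        have hpne : (p : ℤ) ^ (3 * κ - 7 * s) ≠ 0 := by
          have : (p : ℤ) ≠ 0 := by exact_mod_cast hp.ne_zero
          positivity
        exact Int.dvd_of_mul_dvd_mul_left hpne h1
      rw [if_pos hdiv]
      have h3 : ‖∑ l ∈ S, ∑ h ∈ Ico β (β + (K : ℤ)), DD ((p ^ (κ - 4 * s) : ℕ) : ℤ) v3
        (DD ((p ^ (κ - 2 * s) : ℕ) : ℤ) v2 (DD ((p ^ (κ - s) : ℕ) : ℤ) v1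
          (Fn p r l0 h0 Ψ Y C γ β K l))) h‖ ≤ ∑ l ∈ S, ∑ h ∈ Ico β (β + (K : ℤ)), (1 : ℝ) := by
        refine (norm_sum_le _ _).trans (sum_le_sum fun l hl => ?_)
        refine (norm_sum_le _ _).trans (sum_le_sum fun h _ => ?_)
        rw [htr l hl h]
        split_ifs
        · rw [AddChar.norm_apply]
        · simp
      refine h3.trans ?_
      rw [sum_const, sum_const, nsmul_eq_mul, nsmul_eq_mul, Int.card_Ico]
      have h4 : (β + (K : ℤ) - β).toNat = K := by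
        rw [add_sub_cancel_left, Int.toNat_natCast]
      rw [h4, mul_one]
      have : (S.card : ℝ) * K ≤ Yn * K := by gcongr
      linarith
  -- summing over v
  set N1 := (Ioo (-((p ^ s : ℕ) : ℤ)) ((p ^ s : ℕ) : ℤ)).filter (· ≠ 0) with hN1
  set N2 := (Ioo (-((p ^ (2 * s) : ℕ) : ℤ)) ((p ^ (2 * s) : ℕ) : ℤ)).filter (· ≠ 0) with hN2
  set N3 := (Ioo (-((p ^ (4 * s) : ℕ) : ℤ)) ((p ^ (4 * s) : ℕ) : ℤ)).filter (· ≠ 0) with hN3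
  have hsumv : ∑ v1 ∈ N1, ∑ v2 ∈ N2, ∑ v3 ∈ N3,
      ‖∑ l ∈ S, ∑ h ∈ Ico β (β + (K : ℤ)), DD ((p ^ (κ - 4 * s) : ℕ) : ℤ) v3
        (DD ((p ^ (κ - 2 * s) : ℕ) : ℤ) v2 (DD ((p ^ (κ - s) : ℕ) : ℤ) v1
          (Fn p r l0 h0 Ψ Y C γ β K l))) h‖ ≤
      8 * (p : ℝ) ^ (7 * s) * B1 + Yn * K * (8 * (e + 1) ^ 3 * (p : ℝ) ^ (7 * s) / (p : ℝ) ^ e) := by
    calc _ ≤ ∑ v1 ∈ N1, ∑ v2 ∈ N2, ∑ v3 ∈ N3,
          (B1 + if (p : ℤ) ^ e ∣ v1 * v2 * v3 then (Yn : ℝ) * K else 0) := by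
          refine sum_le_sum fun v1 h1 => sum_le_sum fun v2 h2 => sum_le_sum fun v3 h3 => ?_
          rw [mem_filter] at h1 h2 h3
          exact hpt v1 v2 v3 h1.2 h2.2 h3.2
      _ = (N1.card * (N2.card * (N3.card * B1))) +
          ∑ v ∈ N1 ×ˢ N2 ×ˢ N3, (if (p : ℤ) ^ e ∣ v.1 * v.2.1 * v.2.2 then (Yn : ℝ) * K else 0) := by
          rw [sum_product]
          simp_rw [sum_product, sum_add_distrib, sum_const, nsmul_eq_mul]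
      _ ≤ _ := by
          have c1 := card_nz (p ^ s)
          have c2 := card_nz (p ^ (2 * s))
          have c3 := card_nz (p ^ (4 * s))
          rw [← hN1] at c1
          rw [← hN2] at c2
          rw [← hN3] at c3
          push_cast at c1 c2 c3
          refine add_le_add ?_ ?_
          · calc (N1.card : ℝ) * (N2.card * (N3.card * B1)) ≤
                (2 * (p : ℝ) ^ s) * ((2 * (p : ℝ) ^ (2 * s)) * ((2 * (p : ℝ) ^ (4 * s)) * B1)) := by gcongr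
              _ = 8 * ((p : ℝ) ^ s * (p : ℝ) ^ (2 * s) * (p : ℝ) ^ (4 * s)) * B1 := by ring
              _ = _ := by rw [← pow_add, ← pow_add]; congr 3; ring
          · rw [← sum_filter, sum_const, nsmul_eq_mul, mul_comm]
            have h5 := hcnt p e hp (p ^ s) (p ^ (2 * s)) (p ^ (4 * s))
            refine mul_le_mul_of_nonneg_left (h5.trans (le_of_eq ?_)) (by positivity)
            push_cast
            have : (p : ℝ) ^ s * (p : ℝ) ^ (2 * s) * (p : ℝ) ^ (4 * s) = (p : ℝ) ^ (7 * s) := by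
              rw [← pow_add, ← pow_add]; congr 1; ring
            rw [this]
  have hKr : (K : ℝ) = (p : ℝ) ^ κ := by rw [hK]; push_cast; rfl
  -- final computation
  have hρe : (p : ℝ) ^ ρ = (p : ℝ) ^ e * p := by rw [← pow_succ]; congr 1; omega
  have hA' : (p : ℝ) ^ ρ * (p : ℝ) ^ (4 * s) ≤ Yn * K := by
    rw [← pow_add]
    exact_mod_cast hA
  have hB' : (p : ℝ) ^ (4 * s) ≤ (p : ℝ) ^ ρ := pow_le_pow_right₀ hp1 (by omega)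
  have he1 : ((e : ℝ) + 1) ≤ 1 + r := by
    have : e ≤ r := by omega
    have : (e : ℝ) ≤ r := by exact_mod_cast this
    linarith
  have hYn : (1 : ℝ) ≤ Yn := by exact_mod_cast hY
  set G : ℝ := LG ^ 2 * (1 + r) ^ 3 with hG
  have hG1 : 1 ≤ G := by
    have h1 : (1 : ℝ) ≤ LG ^ 2 := one_le_pow₀ hLG1
    have h2 : (1 : ℝ) ≤ (1 + (r : ℝ)) ^ 3 := one_le_pow₀ (by linarith [Nat.cast_nonneg (α := ℝ) r])
    nlinarith
  set W : ℝ := (Yn : ℝ) ^ 4 * (K : ℝ) ^ 8 / (p : ℝ) ^ (4 * s) with hW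
  have hW0 : 0 ≤ W := by positivity
  have hq1 : (0 : ℝ) < (p : ℝ) ^ (4 * s) := by positivity
  have hq7 : (0 : ℝ) < (p : ℝ) ^ (7 * s) := by positivity
  have t1 : (S.card : ℝ) ^ 4 * (K : ℝ) ^ 8 *
      (1 / ((p ^ s : ℕ) : ℝ) ^ 4 + 1 / ((p ^ (2 * s) : ℕ) : ℝ) ^ 2 + 1 / ((p ^ (4 * s) : ℕ) : ℝ)) ≤
      3 * W := by
    have e1 : (1 / ((p ^ s : ℕ) : ℝ) ^ 4 + 1 / ((p ^ (2 * s) : ℕ) : ℝ) ^ 2 +
        1 / ((p ^ (4 * s) : ℕ) : ℝ)) = 3 / (p : ℝ) ^ (4 * s) := by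
      push_cast
      rw [← pow_mul, ← pow_mul, show s * 4 = 4 * s by ring, show 2 * s * 2 = 4 * s by ring]
      ring
    rw [e1, hW]
    calc (S.card : ℝ) ^ 4 * (K : ℝ) ^ 8 * (3 / (p : ℝ) ^ (4 * s)) ≤
        (Yn : ℝ) ^ 4 * (K : ℝ) ^ 8 * (3 / (p : ℝ) ^ (4 * s)) := by gcongr
      _ = _ := by ring
  have t2 : (S.card : ℝ) ^ 3 * (K : ℝ) ^ 7 /
      (((p ^ s : ℕ) : ℝ) * ((p ^ (2 * s) : ℕ) : ℝ) * ((p ^ (4 * s) : ℕ) : ℝ)) *
      ∑ v1 ∈ N1, ∑ v2 ∈ N2, ∑ v3 ∈ N3,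
      ‖∑ l ∈ S, ∑ h ∈ Ico β (β + (K : ℤ)), DD ((p ^ (κ - 4 * s) : ℕ) : ℤ) v3
        (DD ((p ^ (κ - 2 * s) : ℕ) : ℤ) v2 (DD ((p ^ (κ - s) : ℕ) : ℤ) v1
          (Fn p r l0 h0 Ψ Y C γ β K l))) h‖ ≤ (8 * (p : ℝ) ^ 2 + 8 * p) * W * G := by
    have e1 : ((p ^ s : ℕ) : ℝ) * ((p ^ (2 * s) : ℕ) : ℝ) * ((p ^ (4 * s) : ℕ) : ℝ) =
        (p : ℝ) ^ (7 * s) := by
      push_cast
      rw [← pow_add, ← pow_add]; congr 1; ring
    rw [e1]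
    have f1 : 8 * (p : ℝ) ^ (7 * s) * B1 ≤
        8 * (p : ℝ) ^ 2 * (p : ℝ) ^ (7 * s) * (Yn * K / (p : ℝ) ^ (4 * s)) * G := by
      have g1 : (p : ℝ) ^ ρ ≤ Yn * K / (p : ℝ) ^ (4 * s) := by
        rw [le_div_iff₀ hq1]; exact hA'
      have g2 : LG ^ 2 ≤ G := by
        rw [hG]
        have h2 : (1 : ℝ) ≤ (1 + (r : ℝ)) ^ 3 := one_le_pow₀ (by linarith [Nat.cast_nonneg (α := ℝ) r])
        exact le_mul_of_one_le_right (by positivity) h2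
      calc 8 * (p : ℝ) ^ (7 * s) * B1 = 8 * (p : ℝ) ^ 2 * (p : ℝ) ^ (7 * s) * (p : ℝ) ^ ρ * LG ^ 2 := by
            rw [hB1]; ring
        _ ≤ _ := by gcongr
    have f2 : Yn * K * (8 * ((e : ℝ) + 1) ^ 3 * (p : ℝ) ^ (7 * s) / (p : ℝ) ^ e) ≤
        8 * p * (p : ℝ) ^ (7 * s) * (Yn * K / (p : ℝ) ^ (4 * s)) * G := by
      have g1 : 1 / (p : ℝ) ^ e ≤ p / (p : ℝ) ^ (4 * s) := by
        have h9 : (p : ℝ) * (p : ℝ) ^ e = (p : ℝ) ^ ρ := by rw [hρe]; ring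
        rw [div_le_div_iff₀ (by positivity) hq1, one_mul, h9]
        exact hB'
      have g2 : ((e : ℝ) + 1) ^ 3 ≤ G := by
        calc ((e : ℝ) + 1) ^ 3 ≤ (1 + (r : ℝ)) ^ 3 := by gcongr
          _ ≤ LG ^ 2 * (1 + (r : ℝ)) ^ 3 := le_mul_of_one_le_left (by positivity) (one_le_pow₀ hLG1)
      calc Yn * K * (8 * ((e : ℝ) + 1) ^ 3 * (p : ℝ) ^ (7 * s) / (p : ℝ) ^ e) =
            8 * (p : ℝ) ^ (7 * s) * (Yn * K) * (1 / (p : ℝ) ^ e) * ((e : ℝ) + 1) ^ 3 := by ring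
        _ ≤ 8 * (p : ℝ) ^ (7 * s) * (Yn * K) * (p / (p : ℝ) ^ (4 * s)) * G := by gcongr
        _ = _ := by ring
    calc _ ≤ (Yn : ℝ) ^ 3 * (K : ℝ) ^ 7 / (p : ℝ) ^ (7 * s) *
          (8 * (p : ℝ) ^ 2 * (p : ℝ) ^ (7 * s) * (Yn * K / (p : ℝ) ^ (4 * s)) * G +
          8 * p * (p : ℝ) ^ (7 * s) * (Yn * K / (p : ℝ) ^ (4 * s)) * G) := by
          gcongr
          exact hsumv.trans (add_le_add f1 f2)
      _ = _ := by
          rw [hW]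
          field_simp
  have hfin : 131072 * ((S.card : ℝ) ^ 4 * (K : ℝ) ^ 8 *
      (1 / ((p ^ s : ℕ) : ℝ) ^ 4 + 1 / ((p ^ (2 * s) : ℕ) : ℝ) ^ 2 + 1 / ((p ^ (4 * s) : ℕ) : ℝ)) +
      (S.card : ℝ) ^ 3 * (K : ℝ) ^ 7 /
      (((p ^ s : ℕ) : ℝ) * ((p ^ (2 * s) : ℕ) : ℝ) * ((p ^ (4 * s) : ℕ) : ℝ)) *
      ∑ v1 ∈ N1, ∑ v2 ∈ N2, ∑ v3 ∈ N3,
      ‖∑ l ∈ S, ∑ h ∈ Ico β (β + (K : ℤ)), DD ((p ^ (κ - 4 * s) : ℕ) : ℤ) v3
        (DD ((p ^ (κ - 2 * s) : ℕ) : ℤ) v2 (DD ((p ^ (κ - s) : ℕ) : ℤ) v1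
          (Fn p r l0 h0 Ψ Y C γ β K l))) h‖) ≤
      131072 * (3 * W + (8 * (p : ℝ) ^ 2 + 8 * p) * W * G) :=
    mul_le_mul_of_nonneg_left (add_le_add t1 t2) (by norm_num)
  refine hfin.trans ?_
  rw [← hKr]
  calc 131072 * (3 * W + (8 * (p : ℝ) ^ 2 + 8 * p) * W * G) ≤
        131072 * (3 * W * G + (8 * (p : ℝ) ^ 2 + 8 * p) * W * G) := by
        have : 3 * W ≤ 3 * W * G := le_mul_of_one_le_right (by positivity) hG1
        gcongr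
    _ = _ := by rw [hW, hG]; ring

end Pool.Agent.Y766.R7
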