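import Pool.Agent.Y766.R7.ZB

/-!
The mean square over `l` of the sums of `KL` over intervals in `h`.
-/

set_option autoImplicit false

namespace Pool.Agent.Y766.R7

open Finset
open Pool.Agent.Y766.R3 (eu KL S_KLO)

variable {p r : ℕ}

lemma mod_cls (hp : p.Prime) {l : ℤ} (hl : ¬ (p : ℤ) ∣ l) :
    l % p ∈ Ico (1 : ℤ) p ∧ (p : ℤ) ∣ l - l % p := by
  have h0 : (0 : ℤ) < p := by exact_mod_cast hp.pos
  have h1 := Int.emod_nonneg l h0.ne'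
  have h2 := Int.emod_lt_of_pos l h0
  have h3 : l % p ≠ 0 := fun h => hl (Int.dvd_of_emod_eq_zero h)
  exact ⟨mem_Ico.2 ⟨by omega, h2⟩, Int.dvd_self_sub_emod⟩

lemma cls_nd (hp : p.Prime) {l0 : ℤ} (h : l0 ∈ Ico (1 : ℤ) p) : ¬ (p : ℤ) ∣ l0 := by
  rw [mem_Ico] at h
  intro hd
  have := Int.le_of_dvd (by omega) hd
  omega

theorem key_abs (hbr : S_BR) (hklo : S_KLO) [NeZero (p ^ r)] (hp : p.Prime) (hp2 : p ≠ 2)
    {u : ℕ} (hr2 : 2 ≤ r) (hu : 2 * u + 1 ≤ r)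
    {Ψ : ZMod (p ^ r) → ℂ} (hΨ : ∀ y, ‖Ψ y‖ = 1)
    (hΨ2 : ∀ y z : ZMod (p ^ r), Ψ (y + (p : ZMod (p ^ r)) ^ u * z) = Ψ y)
    {A L : ZMod (p ^ r)} (hA : IsUnit A) (hL : IsUnit L) (γ : ℤ → ℝ) (β : ℤ) (K Yn : ℕ) {Z : ℝ}
    (hZ : ∀ l0 h0 : ℤ, ¬ (p : ℤ) ∣ l0 → ¬ (p : ℤ) ∣ h0 → ∀ Y C : ZMod (p ^ r), IsUnit C →
      ∑ l ∈ Ico (1 : ℤ) (1 + Yn), ‖∑ h ∈ Ico β (β + K), Fn p r l0 h0 Ψ Y C γ β K l h‖ ^ 2 ≤ Z) :
    ∑ l ∈ (Ico (1 : ℤ) (1 + Yn)).filter (fun l => ¬ (p : ℤ) ∣ l),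
      ‖∑ h ∈ Ico β (β + K), KL Ψ A (L * ((l * h : ℤ) : ZMod (p ^ r))) * eu (γ l * h)‖ ^ 2 ≤
      4 * (p : ℝ) ^ 5 * (p : ℝ) ^ r * Z := by
  classical
  have hp0 : (0 : ℝ) < p := by exact_mod_cast hp.pos
  have hp1 : (1 : ℝ) ≤ p := by exact_mod_cast hp.one_le
  have hpZ : Prime (p : ℤ) := Nat.prime_iff_prime_int.1 hp
  obtain ⟨-, k2, -⟩ := hklo p r u hp hp2 hr2 (by omega) Ψ hΨ hΨ2 A L hA hL
  have hex : ∀ l0 h0 : ℤ, ∃ (ρ : Fin 2 → ℂ) (Y : Fin 2 → ZMod (p ^ r)), ¬ (p : ℤ) ∣ l0 →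
      ¬ (p : ℤ) ∣ h0 → (∀ i, ‖ρ i‖ ≤ p ∧ IsUnit (Y i)) ∧
      ∀ l h : ℤ, (p : ℤ) ∣ l - l0 → (p : ℤ) ∣ h - h0 →
      KL Ψ A (L * ((l * h : ℤ) : ZMod (p ^ r))) = (p : ℂ) ^ (r / 2) *
        ∑ i, ρ i * Ψ (Y i * (aa p r l0 l * aa p r h0 h)) *
          ZMod.stdAddChar (2 * A * Y i * (aa p r l0 l * aa p r h0 h)) := by
    intro l0 h0
    by_cases hc : ¬ (p : ℤ) ∣ l0 ∧ ¬ (p : ℤ) ∣ h0
    · obtain ⟨ρ, Y, h1, h2⟩ := hbr p r u hp hp2 hr2 hu Ψ hΨ2 A L hA hL l0 h0 hc.1 hc.2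
      exact ⟨ρ, Y, fun _ _ => ⟨h1, h2⟩⟩
    · exact ⟨fun _ => 0, fun _ => 0, fun a b => absurd ⟨a, b⟩ hc⟩
  choose ρ Y hρY using hex
  have h2u : IsUnit (2 : ZMod (p ^ r)) := by
    have h1 : ¬ (p : ℤ) ∣ 2 := by
      intro h
      have h2 : p ∣ 2 := by exact_mod_cast h
      exact hp2 ((Nat.prime_dvd_prime_iff_eq hp Nat.prime_two).1 h2)
    have := Pool.Agent.Y779.R3.unit_int (r := r) hp h1
    simpa using this
  -- pointwise in `l`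
  set X : ℤ → ℤ → Fin 2 → ℤ → ℝ := fun l0 h0 i l =>
    ‖∑ h ∈ Ico β (β + K), Fn p r l0 h0 Ψ (Y l0 h0 i) (2 * A * Y l0 h0 i) γ β K l h‖ ^ 2 with hX
  have hX0 : ∀ l0 h0 i l, 0 ≤ X l0 h0 i l := fun l0 h0 i l => by
    simp only [hX]; positivity
  have hone : ∀ l ∈ (Ico (1 : ℤ) (1 + Yn)).filter (fun l => ¬ (p : ℤ) ∣ l),
      ‖∑ h ∈ Ico β (β + K), KL Ψ A (L * ((l * h : ℤ) : ZMod (p ^ r))) * eu (γ l * h)‖ ^ 2 ≤
      ∑ l0 ∈ Ico (1 : ℤ) p, ∑ h0 ∈ Ico (1 : ℤ) p, ∑ i : Fin 2,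
        2 * (p : ℝ) ^ 3 * (p : ℝ) ^ r * X l0 h0 i l := by
    intro l hl
    rw [mem_filter] at hl
    obtain ⟨m1, m2⟩ := mod_cls hp hl.2
    set l0 := l % p with hl0
    have hl0d := cls_nd hp m1
    have e1 : ∑ h ∈ Ico β (β + K), KL Ψ A (L * ((l * h : ℤ) : ZMod (p ^ r))) * eu (γ l * h) =
        ∑ h0 ∈ Ico (1 : ℤ) p, ∑ i : Fin 2, (p : ℂ) ^ (r / 2) * ρ l0 h0 i *
          ∑ h ∈ Ico β (β + K), Fn p r l0 h0 Ψ (Y l0 h0 i) (2 * A * Y l0 h0 i) γ β K l h := by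
      simp_rw [mul_sum]
      have e2 : ∀ h0 ∈ Ico (1 : ℤ) p, ∑ i : Fin 2, ∑ h ∈ Ico β (β + K), (p : ℂ) ^ (r / 2) * ρ l0 h0 i *
          Fn p r l0 h0 Ψ (Y l0 h0 i) (2 * A * Y l0 h0 i) γ β K l h =
          ∑ h ∈ Ico β (β + K), if (p : ℤ) ∣ h - h0 then
            KL Ψ A (L * ((l * h : ℤ) : ZMod (p ^ r))) * eu (γ l * h) else 0 := by
        intro h0 hh0
        have hh0d := cls_nd hp hh0
        rw [sum_comm]
        refine sum_congr rfl fun h hh => ?_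
        by_cases hc : (p : ℤ) ∣ h - h0
        · rw [if_pos hc, (hρY l0 h0 hl0d hh0d).2 l h m2 hc, mul_sum, sum_mul]
          refine sum_congr rfl fun i _ => ?_
          unfold Fn
          rw [if_pos ⟨hh, hc, m2⟩]
          ring
        · rw [if_neg hc]
          refine sum_eq_zero fun i _ => ?_
          unfold Fn
          rw [if_neg (fun h1 => hc h1.2.1), mul_zero]
      rw [sum_congr rfl e2, sum_comm]
      refine sum_congr rfl fun h _ => ?_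
      by_cases hc : (p : ℤ) ∣ h
      · rw [k2 (l * h) (Dvd.dvd.mul_left hc _)]
        simp
      · obtain ⟨n1, n2⟩ := mod_cls hp hc
        rw [sum_eq_single (h % p)]
        · rw [if_pos n2]
        · intro h0 hh0 hne
          rw [if_neg]
          intro hd
          apply hne
          have h3 : (p : ℤ) ∣ h0 - h % p := by
            have := dvd_sub n2 hd
            have e : h - h % p - (h - h0) = h0 - h % p := by ring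
            rwa [e] at this
          rw [mem_Ico] at hh0 n1
          have h4 : (h0 - h % p) = 0 := by
            apply Int.eq_zero_of_abs_lt_dvd h3
            rw [abs_lt]
            constructor <;> omega
          omega
        · intro h1
          exact absurd n1 h1
    rw [e1]
    have hcs : ‖∑ h0 ∈ Ico (1 : ℤ) p, ∑ i : Fin 2, (p : ℂ) ^ (r / 2) * ρ l0 h0 i *
          ∑ h ∈ Ico β (β + K), Fn p r l0 h0 Ψ (Y l0 h0 i) (2 * A * Y l0 h0 i) γ β K l h‖ ^ 2 ≤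
        ∑ h0 ∈ Ico (1 : ℤ) p, ∑ i : Fin 2, 2 * (p : ℝ) ^ 3 * (p : ℝ) ^ r * X l0 h0 i l := by
      have f1 : ‖∑ h0 ∈ Ico (1 : ℤ) p, ∑ i : Fin 2, (p : ℂ) ^ (r / 2) * ρ l0 h0 i *
          ∑ h ∈ Ico β (β + K), Fn p r l0 h0 Ψ (Y l0 h0 i) (2 * A * Y l0 h0 i) γ β K l h‖ ≤
          ∑ h0 ∈ Ico (1 : ℤ) p, ∑ i : Fin 2, ‖(p : ℂ) ^ (r / 2) * ρ l0 h0 i *
          ∑ h ∈ Ico β (β + K), Fn p r l0 h0 Ψ (Y l0 h0 i) (2 * A * Y l0 h0 i) γ β K l h‖ := by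
        refine (norm_sum_le _ _).trans (sum_le_sum fun h0 _ => norm_sum_le _ _)
      have f2 : (∑ h0 ∈ Ico (1 : ℤ) p, ∑ i : Fin 2, ‖(p : ℂ) ^ (r / 2) * ρ l0 h0 i *
          ∑ h ∈ Ico β (β + K), Fn p r l0 h0 Ψ (Y l0 h0 i) (2 * A * Y l0 h0 i) γ β K l h‖) ^ 2 ≤
          ((Ico (1 : ℤ) p ×ˢ (univ : Finset (Fin 2))).card : ℝ) *
          ∑ h0 ∈ Ico (1 : ℤ) p, ∑ i : Fin 2, ‖(p : ℂ) ^ (r / 2) * ρ l0 h0 i *
          ∑ h ∈ Ico β (β + K), Fn p r l0 h0 Ψ (Y l0 h0 i) (2 * A * Y l0 h0 i) γ β K l h‖ ^ 2 := by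
        have := sq_sum_le_card_mul_sum_sq (s := Ico (1 : ℤ) p ×ˢ (univ : Finset (Fin 2)))
          (f := fun x => ‖(p : ℂ) ^ (r / 2) * ρ l0 x.1 x.2 *
          ∑ h ∈ Ico β (β + K), Fn p r l0 x.1 Ψ (Y l0 x.1 x.2) (2 * A * Y l0 x.1 x.2) γ β K l h‖)
        rwa [sum_product, sum_product] at this
      have f3 : ((Ico (1 : ℤ) p ×ˢ (univ : Finset (Fin 2))).card : ℝ) ≤ 2 * p := by
        rw [card_product, Int.card_Ico, card_univ, Fintype.card_fin]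
        have : ((p : ℤ) - 1).toNat * 2 ≤ 2 * p := by omega
        exact_mod_cast this
      refine (pow_le_pow_left₀ (norm_nonneg _) f1 2).trans (f2.trans ?_)
      calc _ ≤ (2 * (p : ℝ)) * ∑ h0 ∈ Ico (1 : ℤ) p, ∑ i : Fin 2, (p : ℝ) ^ 2 * (p : ℝ) ^ r * X l0 h0 i l := by
            refine mul_le_mul f3 ?_ (by positivity) (by positivity)
            refine sum_le_sum fun h0 hh0 => sum_le_sum fun i _ => ?_
            rw [norm_mul, mul_pow, norm_mul, mul_pow]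
            have g1 : ‖(p : ℂ) ^ (r / 2)‖ ^ 2 ≤ (p : ℝ) ^ r := by
              rw [norm_pow, Complex.norm_natCast, ← pow_mul]
              exact pow_le_pow_right₀ hp1 (by omega)
            have g2 : ‖ρ l0 h0 i‖ ^ 2 ≤ (p : ℝ) ^ 2 :=
              pow_le_pow_left₀ (norm_nonneg _) ((hρY l0 h0 hl0d (cls_nd hp hh0)).1 i).1 2
            calc _ ≤ (p : ℝ) ^ r * (p : ℝ) ^ 2 * X l0 h0 i l := by
                  simp only [hX]
                  gcongr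
              _ = _ := by ring
        _ = _ := by
            rw [mul_sum]
            refine sum_congr rfl fun h0 _ => ?_
            rw [mul_sum]
            refine sum_congr rfl fun i _ => ?_
            ring
    refine hcs.trans ?_
    exact single_le_sum (f := fun l0 => ∑ h0 ∈ Ico (1 : ℤ) p, ∑ i : Fin 2,
        2 * (p : ℝ) ^ 3 * (p : ℝ) ^ r * X l0 h0 i l)
      (fun l0 _ => sum_nonneg fun h0 _ => sum_nonneg fun i _ =>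
        mul_nonneg (by positivity) (hX0 _ _ _ _)) m1
  have hZ' : ∀ l0 ∈ Ico (1 : ℤ) p, ∀ h0 ∈ Ico (1 : ℤ) p, ∀ i : Fin 2,
      ∑ l ∈ (Ico (1 : ℤ) (1 + Yn)).filter (fun l => ¬ (p : ℤ) ∣ l), X l0 h0 i l ≤ Z := by
    intro l0 hl0 h0 hh0 i
    have g1 := hZ l0 h0 (cls_nd hp hl0) (cls_nd hp hh0) (Y l0 h0 i) (2 * A * Y l0 h0 i)
      ((h2u.mul hA).mul ((hρY l0 h0 (cls_nd hp hl0) (cls_nd hp hh0)).1 i).2)
    refine le_trans ?_ g1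
    exact sum_le_sum_of_subset_of_nonneg (filter_subset _ _) fun l _ _ => hX0 _ _ _ _
  have hZ0 : 0 ≤ Z := by
    have hp1' : (1 : ℤ) ∈ Ico (1 : ℤ) p := by
      rw [mem_Ico]
      have := hp.one_lt
      omega
    refine le_trans ?_ (hZ' 1 hp1' 1 hp1' 0)
    exact sum_nonneg fun l _ => hX0 _ _ _ _
  calc _ ≤ ∑ l ∈ (Ico (1 : ℤ) (1 + Yn)).filter (fun l => ¬ (p : ℤ) ∣ l),
        ∑ l0 ∈ Ico (1 : ℤ) p, ∑ h0 ∈ Ico (1 : ℤ) p, ∑ i : Fin 2,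
        2 * (p : ℝ) ^ 3 * (p : ℝ) ^ r * X l0 h0 i l := sum_le_sum hone
    _ = ∑ l0 ∈ Ico (1 : ℤ) p, ∑ h0 ∈ Ico (1 : ℤ) p, ∑ i : Fin 2, 2 * (p : ℝ) ^ 3 * (p : ℝ) ^ r *
        ∑ l ∈ (Ico (1 : ℤ) (1 + Yn)).filter (fun l => ¬ (p : ℤ) ∣ l), X l0 h0 i l := by
        rw [sum_comm]
        refine sum_congr rfl fun l0 _ => ?_
        rw [sum_comm]
        refine sum_congr rfl fun h0 _ => ?_
        rw [sum_comm]
        refine sum_congr rfl fun i _ => ?_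
        rw [mul_sum]
    _ ≤ ∑ l0 ∈ Ico (1 : ℤ) p, ∑ h0 ∈ Ico (1 : ℤ) p, ∑ i : Fin 2, 2 * (p : ℝ) ^ 3 * (p : ℝ) ^ r * Z := by
        refine sum_le_sum fun l0 hl0 => sum_le_sum fun h0 hh0 => sum_le_sum fun i _ => ?_
        exact mul_le_mul_of_nonneg_left (hZ' l0 hl0 h0 hh0 i) (by positivity)
    _ = (((Ico (1 : ℤ) p).card : ℝ) ^ 2) * (4 * (p : ℝ) ^ 3 * (p : ℝ) ^ r * Z) := by
        simp only [sum_const, nsmul_eq_mul, card_univ, Fintype.card_fin]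
        push_cast
        ring
    _ ≤ ((p : ℝ) ^ 2) * (4 * (p : ℝ) ^ 3 * (p : ℝ) ^ r * Z) := by
        have hc : ((Ico (1 : ℤ) p).card : ℝ) ≤ p := by
          rw [Int.card_Ico]
          have : ((p : ℤ) - 1).toNat ≤ p := by omega
          exact_mod_cast this
        gcongr
    _ = _ := by ring

end Pool.Agent.Y766.R7
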