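import Pool.Agent.Y766.R3.DB

/-!
Poisson summation and summation by parts on average over a family.
-/

set_option autoImplicit false

namespace Pool.Agent.Y766.R7

open Finset MeasureTheory
open Pool.Agent.H442R2 Pool.Agent.H442R2.TSM Pool.Agent.H442R2.TSM.TaskTA
open Pool.Agent.H442R2.TSM.TaskQI
open Pool.Agent.Y766
open Pool.Agent.Y766.R3

theorem poi_avg : ∃ C : ℝ, 0 < C ∧ ∀ (Q : ℕ) [NeZero Q] (ι : Type) (s : Finset ι) (F : ι → ℤ → ℂ),
    (∀ i ∈ s, ∀ n k : ℤ, F i (n + Q * k) = F i n) → ∀ K : ℕ, 0 < K →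
    ∀ (U : ι → ℤ → ℝ) (V : ℝ), 0 ≤ V →
    (∀ i ∈ s, ∀ (h : ℤ) (J : ℕ), J ≤ K → ‖∑ k ∈ range J, FH Q (F i) (h + k)‖ ≤ U i h) →
    (∀ h, ∑ i ∈ s, U i h ≤ V) →
    ∀ (w : ι → ℝ → ℂ) (B : ℝ), 0 ≤ B → (∀ i ∈ s, Good B (w i)) → ∀ Y : ℝ, 0 < Y →
    ∑ i ∈ s, ‖∑ n ∈ Icc 1 ⌊4 * Y⌋₊, F i (n : ℤ) * w i ((n : ℝ) / Y)‖ ≤
      C * B * (V / K) * (1 + K * Y / Q) ^ 2 := by
  set W : ℝ := ∑' c : ℤ, 1 / (1 + (c : ℝ) ^ 2) with hW
  have hW0 : 0 ≤ W := tsum_nonneg fun c => by positivity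
  refine ⟨600 * (W + 1), by positivity, ?_⟩
  intro Q _ ι s F hF K hK U V hV0 hU hV w B hB hw Y hY
  have hQ0 : (0 : ℝ) < Q := by exact_mod_cast NeZero.pos Q
  have hK0 : (0 : ℝ) < K := by exact_mod_cast hK
  set X : ℝ := K * Y / Q with hX
  have hX0 : 0 < X := by positivity
  set L : ℕ := ⌈1 / X⌉₊ with hL
  have hL1 : 1 ≤ L := Nat.one_le_iff_ne_zero.2 (Nat.ceil_pos.2 (by positivity)).ne'
  have hLX : 1 ≤ X * L := by
    have := Nat.le_ceil (1 / X)
    rw [← hL, div_le_iff₀ hX0] at this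
    linarith
  have hLX2 : X * L ≤ 1 + X := by
    have := (Nat.ceil_lt_add_one (by positivity : (0 : ℝ) ≤ 1 / X)).le
    rw [← hL] at this
    calc X * L ≤ X * (1 / X + 1) := by gcongr
      _ = 1 + X := by field_simp
  set v : ℝ := Y / Q with hv
  have hv0 : 0 < v := by positivity
  -- the sums and their signs
  set T : ι → ℂ := fun i => ∑ n ∈ Icc 1 ⌊4 * Y⌋₊, F i (n : ℤ) * w i ((n : ℝ) / Y) with hT
  set sg : ι → ℂ := fun i => (starRingEnd ℂ) (T i) / (‖T i‖ : ℂ) with hsg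
  have hsgn : ∀ i, ‖sg i‖ ≤ 1 := by
    intro i
    simp only [hsg]
    rw [norm_div, Complex.norm_conj, Complex.norm_real, norm_norm]
    exact div_self_le_one _
  have hsgT : ∀ i, sg i * T i = (‖T i‖ : ℂ) := by
    intro i
    simp only [hsg]
    by_cases h : T i = 0
    · rw [h]; simp
    · have h1 : (‖T i‖ : ℂ) ≠ 0 := by
        rw [Ne, Complex.ofReal_eq_zero, norm_eq_zero]; exact h
      rw [div_mul_eq_mul_div, Complex.conj_mul', div_eq_iff h1]
      ring
  have hpo : ∀ i ∈ s, Summable (fun j : ℤ => FH Q (F i) j * Fh (w i) ((j : ℝ) * v)) ∧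
      T i = ((v : ℝ) : ℂ) * ∑' j : ℤ, FH Q (F i) j * Fh (w i) ((j : ℝ) * v) :=
    fun i hi => poisP (F i) (hF i hi) (hw i hi).tst hY
  have hs : Summable (fun j : ℤ => ∑ i ∈ s, sg i * (FH Q (F i) j * Fh (w i) ((j : ℝ) * v))) :=
    summable_sum fun i hi => (hpo i hi).1.mul_left _
  have htot : ∑ i ∈ s, ‖T i‖ = ‖((v : ℝ) : ℂ) * ∑' j : ℤ, ∑ i ∈ s,
      sg i * (FH Q (F i) j * Fh (w i) ((j : ℝ) * v))‖ := by
    have e1 : ((∑ i ∈ s, ‖T i‖ : ℝ) : ℂ) = ((v : ℝ) : ℂ) * ∑' j : ℤ, ∑ i ∈ s,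
      sg i * (FH Q (F i) j * Fh (w i) ((j : ℝ) * v)) := by
      rw [Summable.tsum_finsetSum (fun i hi => (hpo i hi).1.mul_left _), mul_sum]
      push_cast
      refine sum_congr rfl fun i hi => ?_
      rw [← hsgT i, (hpo i hi).2, tsum_mul_left]
      ring
    rw [← e1, Complex.norm_real, Real.norm_eq_abs, abs_of_nonneg (sum_nonneg fun i _ => norm_nonneg _)]
  rw [htot, norm_mul]
  set D : ℕ := K * L with hD
  have hDpos : 0 < D := by positivity
  haveI : NeZero D := ⟨hDpos.ne'⟩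
  have hXv : X = K * v := by rw [hX, hv]; ring
  have hDv : (D : ℝ) * v = X * L := by rw [hXv, hD]; push_cast; ring
  have hloc : ∀ (c : ℤ) (ξ : ℝ), (c : ℝ) * (X * L) ≤ ξ → ξ ≤ (c + 1) * (X * L) →
      200 * B / (1 + ξ ^ 2) ≤ 600 * B / (1 + (c : ℝ) ^ 2) := by
    intro c ξ h1 h2
    have h3 : 1 + (c : ℝ) ^ 2 ≤ 3 * (1 + ξ ^ 2) := by
      rcases le_or_gt 0 c with hc | hc
      · have hc' : (0 : ℝ) ≤ c := by exact_mod_cast hc
        have : (c : ℝ) ≤ ξ := by nlinarith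
        nlinarith
      · have hc' : (c : ℝ) + 1 ≤ 0 := by exact_mod_cast hc
        have : ξ ≤ (c : ℝ) + 1 := by nlinarith
        nlinarith [sq_nonneg ((c : ℝ) + 3 / 2)]
    rw [div_le_div_iff₀ (by positivity) (by positivity)]
    nlinarith
  have hinner : ∀ c : ℤ, ‖∑ n ∈ range D, ∑ i ∈ s, sg i * (FH Q (F i) (c * D + n) *
      Fh (w i) (((c * D + n : ℤ) : ℝ) * v))‖ ≤
      (L * V * (1 + X) * (600 * B)) * (1 / (1 + (c : ℝ) ^ 2)) := by
    intro c
    set S : ℝ := 600 * B / (1 + (c : ℝ) ^ 2) with hS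
    have hS0 : 0 ≤ S := by positivity
    have hone : ∀ i ∈ s, ∀ b ∈ range L, ‖∑ k ∈ range K,
        FH Q (F i) (c * (K * L : ℕ) + (K * b + k : ℕ)) *
        Fh (w i) (((c * (K * L : ℕ) + (K * b + k : ℕ) : ℤ) : ℝ) * v)‖ ≤
        U i (c * (K * L : ℕ) + (K * b : ℕ)) * (S * (1 + X)) := by
      intro i hi b hb
      rw [mem_range] at hb
      obtain ⟨hg0, hg1⟩ := good_fh (hw i hi)
      set ξ : ℕ → ℝ := fun k => ((c * (K * L : ℕ) + (K * b + k : ℕ) : ℤ) : ℝ) * v
        with hξ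
      have hrange : ∀ k < K, (c : ℝ) * (X * L) ≤ ξ k ∧ ξ k ≤ (c + 1) * (X * L) := by
        intro k hk
        have h1 : K * b + k < K * L := by
          have h2 : K * b + k < K * (b + 1) := by rw [mul_add]; omega
          exact h2.trans_le (Nat.mul_le_mul_left _ hb)
        have h5 : ((K * b + k : ℕ) : ℝ) ≤ D := by
          rw [hD]; exact_mod_cast h1.le
        have h6 : (0 : ℝ) ≤ ((K * b + k : ℕ) : ℝ) := Nat.cast_nonneg _
        have e1 : ξ k = (c : ℝ) * (D * v) + ((K * b + k : ℕ) : ℝ) * v := by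
          simp only [hξ, hD]; push_cast; ring
        rw [e1, hDv]
        constructor
        · have : 0 ≤ ((K * b + k : ℕ) : ℝ) * v := by positivity
          linarith
        · have : ((K * b + k : ℕ) : ℝ) * v ≤ D * v := by gcongr
          rw [hDv] at this
          linarith
      have hab := abel_le K (fun k => Fh (w i) (ξ k))
        (fun k => FH Q (F i) (c * (K * L : ℕ) + (K * b + k : ℕ)))
        (V := U i (c * (K * L : ℕ) + (K * b : ℕ))) (S := S) (D := S * v) ?_ ?_ ?_ hS0 (by positivity)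
      · have e2 : U i (c * (K * L : ℕ) + (K * b : ℕ)) * (S + K * (S * v)) =
            U i (c * (K * L : ℕ) + (K * b : ℕ)) * (S * (1 + X)) := by rw [hXv]; ring
        rw [e2] at hab
        refine le_trans (le_of_eq ?_) hab
        congr 1
        exact sum_congr rfl fun i _ => mul_comm _ _
      · intro J hJ
        have := hU i hi (c * (K * L : ℕ) + (K * b : ℕ)) J hJ
        refine le_trans (le_of_eq ?_) this
        congr 1
        refine sum_congr rfl fun i _ => ?_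
        congr 1
        push_cast
        ring
      · intro k hk
        exact (hg0 _).trans (hloc c _ (hrange k hk).1 (hrange k hk).2)
      · intro k hk
        have hr1 := hrange k (by omega)
        have hr2 := hrange (k + 1) hk
        have hmv := Convex.norm_image_sub_le_of_norm_hasDerivWithin_le
          (f := Fh (w i)) (f' := fun x => (hg1 x).choose) (C := S)
          (s := Set.Icc ((c : ℝ) * (X * L)) ((c + 1) * (X * L))) (x := ξ k) (y := ξ (k + 1))
          (fun x _ => (hg1 x).choose_spec.1.hasDerivWithinAt)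
          (fun x hx => (hg1 x).choose_spec.2.trans (hloc c x hx.1 hx.2))
          (convex_Icc _ _) ⟨hr1.1, hr1.2⟩ ⟨hr2.1, hr2.2⟩
        refine hmv.trans (le_of_eq ?_)
        congr 1
        have e3 : ξ (k + 1) - ξ k = v := by simp only [hξ]; push_cast; ring
        rw [e3, Real.norm_eq_abs, abs_of_pos hv0]
    have hre : ∑ n ∈ range D, ∑ i ∈ s, sg i * (FH Q (F i) (c * D + n) *
        Fh (w i) (((c * D + n : ℤ) : ℝ) * v)) = ∑ b ∈ range L, ∑ i ∈ s, sg i * ∑ k ∈ range K,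
        FH Q (F i) (c * (K * L : ℕ) + (K * b + k : ℕ)) *
        Fh (w i) (((c * (K * L : ℕ) + (K * b + k : ℕ) : ℤ) : ℝ) * v) := by
      rw [hD, sum_range_mul']
      refine sum_congr rfl fun b _ => ?_
      rw [sum_comm]
      refine sum_congr rfl fun i _ => ?_
      rw [mul_sum]
    rw [hre]
    calc _ ≤ ∑ b ∈ range L, ∑ i ∈ s, U i (c * (K * L : ℕ) + (K * b : ℕ)) * (S * (1 + X)) := by
          refine (norm_sum_le _ _).trans (sum_le_sum fun b hb => ?_)
          refine (norm_sum_le _ _).trans (sum_le_sum fun i hi => ?_)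
          rw [norm_mul]
          calc _ ≤ 1 * ‖∑ k ∈ range K, FH Q (F i) (c * (K * L : ℕ) + (K * b + k : ℕ)) *
                Fh (w i) (((c * (K * L : ℕ) + (K * b + k : ℕ) : ℤ) : ℝ) * v)‖ := by
                gcongr
                exact hsgn i
            _ ≤ _ := by rw [one_mul]; exact hone i hi b hb
      _ ≤ ∑ b ∈ range L, V * (S * (1 + X)) := by
          refine sum_le_sum fun b _ => ?_
          rw [← sum_mul]
          exact mul_le_mul_of_nonneg_right (hV _) (by positivity)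
      _ = L * (V * (S * (1 + X))) := by
          rw [sum_const, card_range, nsmul_eq_mul]
      _ = _ := by rw [hS]; ring
  have htot := tsum_block (D := D) (fun j : ℤ => ∑ i ∈ s, sg i * (FH Q (F i) j *
      Fh (w i) ((j : ℝ) * v))) hs _
    (summ_W.mul_left (L * V * (1 + X) * (600 * B))) hinner
  rw [tsum_mul_left, ← hW] at htot
  have e5 : ‖((v : ℝ) : ℂ)‖ = v := by
    rw [Complex.norm_real, Real.norm_eq_abs, abs_of_pos hv0]
  rw [e5]
  calc v * ‖∑' j : ℤ, ∑ i ∈ s, sg i * (FH Q (F i) j * Fh (w i) ((j : ℝ) * v))‖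
      ≤ v * (L * V * (1 + X) * (600 * B) * W) := by gcongr
    _ = 600 * W * B * (V / K) * ((X * L) * (1 + X)) := by rw [hXv]; field_simp
    _ ≤ 600 * (W + 1) * B * (V / K) * ((1 + X) * (1 + X)) := by
        have : 0 ≤ V / K := by positivity
        gcongr
        linarith
    _ = _ := by rw [sq]

end Pool.Agent.Y766.R7
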