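import Pool.Agent.Y766.R7.ZC
import Pool.Agent.Y766.R7.ZD
import Pool.Agent.Y766.R3.TC

/-!
The mean square over `l` of the Fourier sums attached to `χ(n + p^m l) conj χ(n)`.
-/

set_option autoImplicit false

namespace Pool.Agent.Y766.R7

open Finset
open Pool.Agent.H442R2
open Pool.Agent.Y766
open Pool.Agent.Y766.R3 (eu KL S_KLO S_PHI FF FH)

/-- completion, on average over a family -/
lemma cmp_avg (hcmp : S_CMP) {ι : Type} (s : Finset ι) (c : ι → ℤ → ℂ) {K : ℕ} (hK : 1 ≤ K) {M2 : ℝ}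
    (hM : ∀ (h : ℤ) (b : ℕ), ∑ i ∈ s, ‖∑ k ∈ range K, c i (h + k) * eu ((b : ℝ) * k / K)‖ ^ 2 ≤ M2) :
    ∃ U : ι → ℤ → ℝ, (∀ i (h : ℤ), ∀ J ≤ K, ‖∑ k ∈ range J, c i (h + k)‖ ≤ U i h) ∧
      ∀ h, ∑ i ∈ s, U i h ≤ (3 + Real.log K) * Real.sqrt (s.card * M2) := by
  obtain ⟨ω, h0, h1, h2⟩ := hcmp K hK
  refine ⟨fun i h => ∑ b ∈ range K, ω b * ‖∑ k ∈ range K, c i (h + k) * eu ((b : ℝ) * k / K)‖,
    fun i h J hJ => h2 (fun k => c i (h + k)) J hJ, fun h => ?_⟩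
  rw [sum_comm]
  simp_rw [← mul_sum]
  have h3 : ∀ b : ℕ, ∑ i ∈ s, ‖∑ k ∈ range K, c i (h + k) * eu ((b : ℝ) * k / K)‖ ≤
      Real.sqrt (s.card * M2) := by
    intro b
    apply Real.le_sqrt_of_sq_le
    refine (sq_sum_le_card_mul_sum_sq).trans ?_
    exact mul_le_mul_of_nonneg_left (hM h b) (Nat.cast_nonneg _)
  calc _ ≤ ∑ b ∈ range K, ω b * Real.sqrt (s.card * M2) :=
        sum_le_sum fun b _ => mul_le_mul_of_nonneg_left (h3 b) (h0 b)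
    _ = (∑ b ∈ range K, ω b) * Real.sqrt (s.card * M2) := by rw [sum_mul]
    _ ≤ _ := mul_le_mul_of_nonneg_right h1 (Real.sqrt_nonneg _)

/-- the data attached to `χ(n + p^m l) conj χ(n)`, uniformly in `l` -/
lemma get_dataU (hPhi : S_PHI) {p ν m u : ℕ} [NeZero (p ^ (ν - m))] (hp : p.Prime) (hp2 : p ≠ 2)
    (hm : 1 ≤ m) (hmν : m < ν) (hu1 : ν ≤ u + 3 * m) (hu2 : u < ν - m)
    {χ : DirichletCharacter ℂ (p ^ ν)} (hχ : χ.IsPrimitive) :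
    ∃ (Ψ : ZMod (p ^ (ν - m)) → ℂ) (A L : ZMod (p ^ (ν - m))), (∀ y, ‖Ψ y‖ = 1) ∧
      (∀ y z : ZMod (p ^ (ν - m)), Ψ (y + (p : ZMod (p ^ (ν - m))) ^ u * z) = Ψ y) ∧
      IsUnit A ∧ IsUnit L ∧
      ∀ l : ℤ, ¬ (p : ℤ) ∣ l → ∃ d : ℤ, ∀ j : ℤ,
      FH (p ^ (ν - m)) (FF χ ((p : ℤ) ^ m * l)) j =
        KF.e (((-(j * d) : ℤ) : ℝ) / (p ^ (ν - m) : ℕ)) *
          KL Ψ A (L * ((l * j : ℤ) : ZMod (p ^ (ν - m)))) := by
  obtain ⟨Φ, hΦ1, hΦ2, hΦ3⟩ := hPhi p ν m hp hp2 hm hmν χ hχ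
  obtain ⟨A, hA, hΦ4⟩ := hΦ3 u hu1 hu2
  have hr1 : 1 ≤ ν - m := by omega
  have hodd : Odd (p ^ (ν - m)) := (hp.odd_of_ne_two hp2).pow
  obtain ⟨c, hc⟩ := hodd
  have hi2 : ((2 * ((c : ℤ) + 1) : ℤ) : ZMod (p ^ (ν - m))) = 1 := by
    have e1 : (2 * ((c : ℤ) + 1) : ℤ) = ((p ^ (ν - m) : ℕ) : ℤ) + 1 := by
      rw [hc]; push_cast; ring
    rw [e1]
    push_cast
    have : ((p ^ (ν - m) : ℕ) : ZMod (p ^ (ν - m))) = 0 := ZMod.natCast_self _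
    push_cast at this
    rw [this, zero_add]
  refine ⟨fun y => Φ y * ZMod.stdAddChar (-(A * y)), A, ((((c : ℤ) + 1 : ℤ)) : ZMod (p ^ (ν - m))),
    ?_, ?_, hA, ?_, ?_⟩
  · intro y
    simp only
    rw [norm_mul, hΦ1, one_mul]
    exact AddChar.norm_apply _ _
  · intro y z
    simp only
    rw [hΦ4]
    have e1 : -(A * (y + (p : ZMod (p ^ (ν - m))) ^ u * z)) =
        -(A * y) + -(A * ((p : ZMod (p ^ (ν - m))) ^ u * z)) := by ring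
    rw [e1, AddChar.map_add_eq_mul]
    have e2 : (ZMod.stdAddChar : AddChar (ZMod (p ^ (ν - m))) ℂ) (A * ((p : ZMod (p ^ (ν - m))) ^ u * z)) *
        (ZMod.stdAddChar : AddChar (ZMod (p ^ (ν - m))) ℂ) (-(A * ((p : ZMod (p ^ (ν - m))) ^ u * z))) = 1 := by
      rw [← AddChar.map_add_eq_mul, add_neg_cancel, AddChar.map_zero_eq_one]
    calc _ = Φ y * (ZMod.stdAddChar : AddChar (ZMod (p ^ (ν - m))) ℂ) (-(A * y)) *
          ((ZMod.stdAddChar : AddChar (ZMod (p ^ (ν - m))) ℂ) (A * ((p : ZMod (p ^ (ν - m))) ^ u * z)) *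
        (ZMod.stdAddChar : AddChar (ZMod (p ^ (ν - m))) ℂ) (-(A * ((p : ZMod (p ^ (ν - m))) ^ u * z)))) := by
            ring
      _ = _ := by rw [e2, mul_one]
  · have h4 : (2 : ZMod (p ^ (ν - m))) * ((((c : ℤ) + 1 : ℤ)) : ZMod (p ^ (ν - m))) = 1 := by
      have := hi2; push_cast at this ⊢; exact this
    exact IsUnit.of_mul_eq_one _ (by rw [mul_comm]; exact h4)
  · intro l hl
    refine ⟨(p : ℤ) ^ m * l * ((c : ℤ) + 1), fun j => ?_⟩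
    have hpP : (p : ℤ) ∣ (p : ℤ) ^ m * l := Dvd.dvd.mul_right (dvd_pow_self _ (by omega)) _
    rw [Pool.Agent.Y766.R3.FH_eval hp hp2 hr1 _ Φ l ((p : ℤ) ^ m * l) hl hpP (hΦ2 l) A ((c : ℤ) + 1) hi2 j]
    have e3 : (((l * ((c : ℤ) + 1) : ℤ) : ZMod (p ^ (ν - m))) * j) =
        ((((c : ℤ) + 1 : ℤ)) : ZMod (p ^ (ν - m))) * ((l * j : ℤ) : ZMod (p ^ (ν - m))) := by
      push_cast; ring
    rw [e3]
    congr 3
    push_cast
    ring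

/-- growth of the logarithmic factors -/
lemma log_fac {p : ℕ} (hp : 2 ≤ p) {δ : ℝ} (hδ : 0 < δ) (r : ℕ) :
    (1 + r * Real.log p) ^ 2 * (1 + (r : ℝ)) ^ 3 ≤
      (8 * (1 + 1 / δ) ^ 5 * ((p : ℝ) ^ r) ^ (2 * δ)) ^ 4 := by
  have hp0 : (0 : ℝ) < p := by exact_mod_cast (by omega : 0 < p)
  have hp1 : (1 : ℝ) ≤ p := by exact_mod_cast (by omega : 1 ≤ p)
  have hlog2 : (1 / 2 : ℝ) ≤ Real.log p := by
    have h1 : Real.log 2 ≤ Real.log p := Real.log_le_log (by norm_num) (by exact_mod_cast hp)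
    have h2 := Real.log_two_gt_d9
    linarith
  set x : ℝ := r * Real.log p with hx
  have hx0 : 0 ≤ x := by positivity
  have hr : (r : ℝ) ≤ 2 * x := by
    have : (0 : ℝ) ≤ r := Nat.cast_nonneg _
    rw [hx]; nlinarith
  set E : ℝ := ((p : ℝ) ^ r) ^ δ with hE
  have hE1 : E = Real.exp (δ * x) := by
    rw [hE, ← Real.rpow_natCast, ← Real.rpow_mul hp0.le, Real.rpow_def_of_pos hp0, hx]
    congr 1
    ring
  have hEx : 1 + δ * x ≤ E := by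
    rw [hE1]
    have := Real.add_one_le_exp (δ * x)
    linarith
  have hE10 : 1 ≤ E := by
    have : 0 ≤ δ * x := by positivity
    linarith
  have h1x : 1 + x ≤ (1 + 1 / δ) * E := by
    calc 1 + x ≤ (1 + 1 / δ) * (1 + δ * x) := by
          have e : (1 + 1 / δ) * (1 + δ * x) = 1 + x + (1 / δ + δ * x) := by field_simp; ring
          rw [e]
          have : 0 ≤ 1 / δ + δ * x := by positivity
          linarith
      _ ≤ _ := by gcongr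
  have hc1 : (1 : ℝ) ≤ 1 + 1 / δ := by
    have : 0 < 1 / δ := by positivity
    linarith
  have hE8 : ((p : ℝ) ^ r) ^ (2 * δ) = E ^ 2 := by
    rw [hE, ← Real.rpow_natCast (((p : ℝ) ^ r) ^ δ), ← Real.rpow_mul (by positivity)]
    congr 1
    push_cast
    ring
  rw [hE8]
  have h1r : 1 + (r : ℝ) ≤ 2 * (1 + x) := by linarith
  calc (1 + x) ^ 2 * (1 + (r : ℝ)) ^ 3 ≤ (1 + x) ^ 2 * (2 * (1 + x)) ^ 3 := by gcongr
    _ = 8 * (1 + x) ^ 5 := by ring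
    _ ≤ 8 * ((1 + 1 / δ) * E) ^ 5 := by gcongr
    _ = 8 * (1 + 1 / δ) ^ 5 * E ^ 5 := by ring
    _ ≤ 8 * (1 + 1 / δ) ^ 5 * E ^ 8 := by
        have : E ^ 5 ≤ E ^ 8 := pow_le_pow_right₀ hE10 (by norm_num)
        gcongr
    _ ≤ (8 * (1 + 1 / δ) ^ 5) ^ 4 * E ^ 8 := by
        have h8 : (1 : ℝ) ≤ 8 * (1 + 1 / δ) ^ 5 := by
          have : (1 : ℝ) ≤ (1 + 1 / δ) ^ 5 := one_le_pow₀ hc1
          linarith
        have : 8 * (1 + 1 / δ) ^ 5 ≤ (8 * (1 + 1 / δ) ^ 5) ^ 4 := le_self_pow₀ h8 (by norm_num)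
        gcongr
    _ = _ := by ring

/-- the mean square over `l` -/
theorem mean_sq (hsq : S_SQ) (htd : S_TD) (hvar : S_VAR) (hinj : S_INJ) (hlin : S_LIN)
    (hvdc : S_VDC) (hcnt : S_CNT) (hbr : S_BR) (hklo : S_KLO) (hPhi : S_PHI)
    {δ : ℝ} (hδ : 0 < δ) : ∃ C : ℝ, 0 < C ∧ ∀ p : ℕ, p.Prime → 7 ≤ p →
    ∀ (ν m s κ Yn : ℕ) [NeZero (p ^ (ν - m))], 1 ≤ m → 1 ≤ s → ν = 3 * m + s → 5 * s ≤ κ →
      ν - m ≤ 7 * (κ - 4 * s) → 3 * κ ≤ ν - m + 3 * s → 1 ≤ Yn →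
      p ^ (ν - m + 7 * s - 3 * κ + 4 * s) ≤ Yn * p ^ κ →
    ∀ χ : DirichletCharacter ℂ (p ^ ν), χ.IsPrimitive → ∀ (h : ℤ) (b : ℝ),
    ∑ l ∈ (Ico (1 : ℤ) (1 + Yn)).filter (fun l => ¬ (p : ℤ) ∣ l),
      ‖∑ k ∈ range (p ^ κ), FH (p ^ (ν - m)) (FF χ ((p : ℤ) ^ m * l)) (h + k) * eu (b * k)‖ ^ 2 ≤
      (C * (p : ℝ) ^ 7) * Yn * ((p : ℝ) ^ κ) ^ 2 * ((p : ℝ) ^ m) ^ 2 * ((p : ℝ) ^ ν) ^ (2 * δ) := by
  set C1 : ℝ := 8 * (1 + 1 / δ) ^ 5 with hC1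
  refine ⟨4 * (131072 * 19 * C1), by positivity, ?_⟩
  intro p hp hp7
  have hp0 : (0 : ℝ) < p := by exact_mod_cast hp.pos
  have hp1 : (1 : ℝ) ≤ p := by exact_mod_cast hp.one_le
  have hp2 : p ≠ 2 := by omega
  set C0 : ℝ := 131072 * (3 + 8 * (p : ℝ) ^ 2 + 8 * p) with hC0
  have hC00 : 1 ≤ C0 := by
    have : 0 < 8 * (p : ℝ) ^ 2 + 8 * p := by positivity
    rw [hC0]; linarith
  have hC0p : C0 ≤ 131072 * 19 * (p : ℝ) ^ 2 := by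
    rw [hC0]
    have : 3 + 8 * (p : ℝ) ^ 2 + 8 * p ≤ 19 * (p : ℝ) ^ 2 := by nlinarith
    linarith
  intro ν m s κ Yn _ hm hs hν hκ h7 hB hY hA χ hχ h b
  obtain ⟨Ψ, A, L, hΨ1, hΨ2, hAu, hLu, hFH⟩ :=
    get_dataU hPhi (u := s) hp hp2 hm (by omega) (by omega) (by omega) hχ
  set Z : ℝ := C0 * (Yn * ((p : ℝ) ^ κ) ^ 2 / (p : ℝ) ^ s) * (C1 * ((p : ℝ) ^ (ν - m)) ^ (2 * δ)) with hZd
  have hZ0 : 0 ≤ Z := by positivity
  -- the phases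
  have hex : ∀ l : ℤ, ∃ γ : ℝ, ¬ (p : ℤ) ∣ l → ∀ j : ℤ,
      FH (p ^ (ν - m)) (FF χ ((p : ℤ) ^ m * l)) j * eu (b * j) =
        KL Ψ A (L * ((l * j : ℤ) : ZMod (p ^ (ν - m)))) * eu (γ * j) := by
    intro l
    by_cases hl : (p : ℤ) ∣ l
    · exact ⟨0, fun h => absurd hl h⟩
    · obtain ⟨d, hd⟩ := hFH l hl
      refine ⟨-(d : ℝ) / (p ^ (ν - m) : ℕ) + b, fun _ j => ?_⟩
      rw [hd, ← Pool.Agent.Y766.R3.eu_eq, mul_comm (eu _) (KL _ _ _), mul_assoc, ← eu_add]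
      congr 2
      push_cast
      ring
  choose γ hγ using hex
  have hkey := key_abs hbr hklo hp hp2 (u := s) (by omega) (by omega) hΨ1 hΨ2 hAu hLu γ h (p ^ κ) Yn
    (Z := Z) (fun l0 h0 hl0 hh0 Y C hC => by
      have h4 := Z4 hsq htd hvar hinj hlin hvdc hcnt hp hp7 (u := s) (κ := κ) (s := s) (Yn := Yn)
        (by omega) (by omega) h7 hB hs hY hA hl0 hh0 hΨ1 hΨ2 Y hC γ h
      refine le_of_pow_le_pow_left₀ (n := 4) (by norm_num) hZ0 (h4.trans ?_)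
      have h5 := log_fac (p := p) (by omega) hδ (ν - m)
      rw [hZd]
      have e1 : (C0 * (Yn * ((p : ℝ) ^ κ) ^ 2 / (p : ℝ) ^ s) * (C1 * ((p : ℝ) ^ (ν - m)) ^ (2 * δ))) ^ 4 =
          C0 ^ 4 * ((Yn : ℝ) ^ 4 * ((p : ℝ) ^ κ) ^ 8 / (p : ℝ) ^ (4 * s)) *
            (C1 * ((p : ℝ) ^ (ν - m)) ^ (2 * δ)) ^ 4 := by
        have : (p : ℝ) ^ (4 * s) = ((p : ℝ) ^ s) ^ 4 := by rw [← pow_mul]; congr 1; ring
        rw [this]
        field_simp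
      rw [e1, ← hC0]
      have hC4 : C0 ≤ C0 ^ 4 := le_self_pow₀ hC00 (by norm_num)
      have hW0 : 0 ≤ (Yn : ℝ) ^ 4 * ((p : ℝ) ^ κ) ^ 8 / (p : ℝ) ^ (4 * s) := by positivity
      have hlog0 : 0 ≤ Real.log p := Real.log_nonneg hp1
      have hG0 : 0 ≤ (1 + ((ν - m : ℕ) : ℝ) * Real.log p) ^ 2 * (1 + ((ν - m : ℕ) : ℝ)) ^ 3 := by positivity
      exact mul_le_mul (mul_le_mul_of_nonneg_right hC4 hW0) h5 hG0 (by positivity))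
  have e2 : ∀ l ∈ (Ico (1 : ℤ) (1 + Yn)).filter (fun l => ¬ (p : ℤ) ∣ l),
      ‖∑ k ∈ range (p ^ κ), FH (p ^ (ν - m)) (FF χ ((p : ℤ) ^ m * l)) (h + k) * eu (b * k)‖ ^ 2 =
      ‖∑ j ∈ Ico h (h + (p ^ κ : ℕ)), KL Ψ A (L * ((l * j : ℤ) : ZMod (p ^ (ν - m)))) * eu (γ l * j)‖ ^ 2 := by
    intro l hl
    rw [mem_filter] at hl
    congr 1
    have e3 : ∑ j ∈ Ico h (h + (p ^ κ : ℕ)), KL Ψ A (L * ((l * j : ℤ) : ZMod (p ^ (ν - m)))) * eu (γ l * j) =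
        ∑ k ∈ range (p ^ κ), FH (p ^ (ν - m)) (FF χ ((p : ℤ) ^ m * l)) (h + k) * eu (b * (h + k : ℤ)) := by
      symm
      refine sum_bij (fun k _ => h + (k : ℤ)) ?_ ?_ ?_ ?_
      · intro k hk
        rw [mem_range] at hk
        rw [mem_Ico]
        constructor
        · omega
        · have : (k : ℤ) < (p ^ κ : ℕ) := by exact_mod_cast hk
          omega
      · intro k _ k' _ hkk
        have : (k : ℤ) = k' := by linarith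
        exact_mod_cast this
      · intro j hj
        rw [mem_Ico] at hj
        refine ⟨(j - h).toNat, ?_, ?_⟩
        · rw [mem_range]; omega
        · rw [Int.toNat_of_nonneg (by omega)]; ring
      · intro k _
        exact hγ l hl.2 _
    rw [e3]
    have e4 : ∀ k : ℕ, eu (b * ((h + (k : ℤ) : ℤ) : ℝ)) = eu (b * h) * eu (b * k) := by
      intro k
      rw [← eu_add]
      congr 1
      push_cast
      ring
    have e5 : ∑ k ∈ range (p ^ κ), FH (p ^ (ν - m)) (FF χ ((p : ℤ) ^ m * l)) (h + k) *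
        eu (b * ((h + (k : ℤ) : ℤ) : ℝ)) = eu (b * h) *
        ∑ k ∈ range (p ^ κ), FH (p ^ (ν - m)) (FF χ ((p : ℤ) ^ m * l)) (h + k) * eu (b * k) := by
      rw [mul_sum]
      refine sum_congr rfl fun k _ => ?_
      rw [e4]
      ring
    rw [e5, norm_mul, eu_norm, one_mul]
  rw [sum_congr rfl e2]
  refine hkey.trans ?_
  have hps : (p : ℝ) ^ (ν - m) = ((p : ℝ) ^ m) ^ 2 * (p : ℝ) ^ s := by
    rw [← pow_mul, ← pow_add]; congr 1; omega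
  have hle : ((p : ℝ) ^ (ν - m)) ^ (2 * δ) ≤ ((p : ℝ) ^ ν) ^ (2 * δ) :=
    Real.rpow_le_rpow (by positivity) (pow_le_pow_right₀ hp1 (by omega)) (by positivity)
  have hps0 : (0 : ℝ) < (p : ℝ) ^ s := by positivity
  calc 4 * (p : ℝ) ^ 5 * (p : ℝ) ^ (ν - m) * Z =
        4 * (p : ℝ) ^ 5 * (C0 * C1) * Yn * ((p : ℝ) ^ κ) ^ 2 * ((p : ℝ) ^ m) ^ 2 *
          ((p : ℝ) ^ (ν - m)) ^ (2 * δ) := by
        rw [hZd]
        generalize ((p : ℝ) ^ (ν - m)) ^ (2 * δ) = G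
        rw [hps]
        field_simp
    _ ≤ 4 * (p : ℝ) ^ 5 * ((131072 * 19 * (p : ℝ) ^ 2) * C1) * Yn * ((p : ℝ) ^ κ) ^ 2 *
        ((p : ℝ) ^ m) ^ 2 * ((p : ℝ) ^ ν) ^ (2 * δ) := by
        have hC10 : 0 ≤ C1 := by positivity
        gcongr
    _ = _ := by ring

end Pool.Agent.Y766.R7
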