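import Pool.Agent.Y766.R7.ZF
import Pool.Agent.Y766.R3.TE

/-!
Mean squares of `L(1/2 + it, χθ)`, `θ` mod `p^m`, `χ` primitive mod `p^ν`, `m / ν ≥ 19 / 58`, and
individual bounds with exponent `19 / 116`.
-/

set_option autoImplicit false

namespace Pool.Agent.Y766.R7

open Finset
open Pool.Agent.H442R2 Pool.Agent.H442R2.TSM
open Pool.Agent.Y766
open Pool.Agent.Y766.R3 (FF orth cong_sum prim_mul)

/-- splitting a sum over `l` according to the power of `p` dividing `l` -/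
lemma split_v {p : ℕ} (hp : p.Prime) {M m ν : ℕ} (hM : M < p ^ ν) (G : ℕ → ℤ → ℝ)
    (hG : ∀ i l, 0 ≤ G i l) (hG' : ∀ (v : ℕ) (l : ℤ), G m ((p : ℤ) ^ v * l) = G (m + v) l) :
    ∑ l ∈ Icc 1 (M / p ^ m), G m (l : ℕ) ≤ ∑ v ∈ range (ν - m),
      ∑ l ∈ (Ico (1 : ℤ) (1 + (M / p ^ (m + v) : ℕ))).filter (fun l => ¬ (p : ℤ) ∣ l), G (m + v) l := by
  classical
  haveI := Fact.mk hp
  have hval : ∀ l ∈ Icc 1 (M / p ^ m), p ^ padicValNat p l ∣ l ∧ p ^ (m + padicValNat p l) ≤ M := by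
    intro l hl
    rw [mem_Icc] at hl
    have h1 : p ^ padicValNat p l ∣ l := pow_padicValNat_dvd
    refine ⟨h1, ?_⟩
    have h2 : p ^ padicValNat p l ≤ l := Nat.le_of_dvd (by omega) h1
    calc p ^ (m + padicValNat p l) = p ^ m * p ^ padicValNat p l := pow_add _ _ _
      _ ≤ p ^ m * (M / p ^ m) := Nat.mul_le_mul_left _ (h2.trans hl.2)
      _ ≤ M := Nat.mul_div_le M (p ^ m)
  calc ∑ l ∈ Icc 1 (M / p ^ m), G m (l : ℕ) ≤
        ∑ l ∈ Icc 1 (M / p ^ m), ∑ v ∈ range (ν - m),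
          (if padicValNat p l = v then G m (l : ℕ) else 0) := by
        refine sum_le_sum fun l hl => ?_
        have h2 : padicValNat p l ∈ range (ν - m) := by
          have h3 := (hval l hl).2
          have h4 : m + padicValNat p l < ν := (Nat.pow_lt_pow_iff_right hp.one_lt).1 (by omega)
          rw [mem_range]; omega
        rw [sum_ite_eq, if_pos h2]
    _ = ∑ v ∈ range (ν - m), ∑ l ∈ (Icc 1 (M / p ^ m)).filter (fun l => padicValNat p l = v),
          G m (l : ℕ) := by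
        rw [sum_comm]
        refine sum_congr rfl fun v _ => ?_
        rw [sum_filter]
    _ ≤ _ := by
        refine sum_le_sum fun v _ => ?_
        set e : ℕ → ℤ := fun l => ((l / p ^ v : ℕ) : ℤ) with he
        have hle : ∀ l ∈ (Icc 1 (M / p ^ m)).filter (fun l => padicValNat p l = v),
            l = p ^ v * (l / p ^ v) := by
          intro l hl
          rw [mem_filter] at hl
          have h1 := (hval l hl.1).1
          rw [hl.2] at h1
          exact (Nat.mul_div_cancel' h1).symm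
        have hinj : Set.InjOn e ((Icc 1 (M / p ^ m)).filter (fun l => padicValNat p l = v)) := by
          intro l hl l' hl' h
          have h1 : l / p ^ v = l' / p ^ v := by
            simp only [he] at h
            exact_mod_cast h
          rw [hle l hl, hle l' hl', h1]
        have e1 : ∑ l ∈ (Icc 1 (M / p ^ m)).filter (fun l => padicValNat p l = v), G m (l : ℕ) =
            ∑ l ∈ ((Icc 1 (M / p ^ m)).filter (fun l => padicValNat p l = v)).image e, G (m + v) l := by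
          rw [sum_image hinj]
          refine sum_congr rfl fun l hl => ?_
          rw [← hG']
          congr 1
          have := hle l hl
          simp only [he]
          exact_mod_cast this
        rw [e1]
        refine sum_le_sum_of_subset_of_nonneg ?_ fun _ _ _ => hG _ _
        intro x hx
        rw [mem_image] at hx
        obtain ⟨l, hl, rfl⟩ := hx
        have h0 := hle l hl
        rw [mem_filter, mem_Icc] at hl
        rw [mem_filter, mem_Ico]
        have hl1 : 1 ≤ l / p ^ v := by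
          rcases Nat.eq_zero_or_pos (l / p ^ v) with h | h
          · rw [h] at h0; omega
          · exact h
        have hl2 : l / p ^ v ≤ M / p ^ (m + v) := by
          rw [pow_add, ← Nat.div_div_eq_div_mul]
          exact Nat.div_le_div_right hl.1.2
        refine ⟨⟨?_, ?_⟩, ?_⟩
        · simp only [he]; exact_mod_cast hl1
        · simp only [he]
          have : ((l / p ^ v : ℕ) : ℤ) ≤ (M / p ^ (m + v) : ℕ) := by exact_mod_cast hl2
          linarith
        · intro hd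
          simp only [he] at hd
          have hd' : p ∣ l / p ^ v := by exact_mod_cast hd
          have h5 : p ^ (v + 1) ∣ l := by
            rw [h0, pow_succ]
            exact Nat.mul_dvd_mul_left _ hd'
          have h6 := pow_succ_padicValNat_not_dvd (p := p) (by omega : l ≠ 0)
          rw [hl.2] at h6
          exact h6 h5

/-- one smooth sum over the family -/
lemma one_sum7 (H : HH) {ε : ℝ} (hε : 0 < ε) (hε1 : ε ≤ 1 / 1000) : ∃ C : ℝ, 0 < C ∧
    ∀ p : ℕ, p.Prime → 7 ≤ p → ∀ (ν m : ℕ) [NeZero (p ^ m)]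
    (hmν : m < ν), 1 ≤ m → 19 * ν ≤ 58 * m → ∀ χ : DirichletCharacter ℂ (p ^ ν), χ.IsPrimitive →
    ∀ (g : ℝ → ℂ) (B : ℝ), Good B g → ∀ N : ℝ, 0 < N → N ≤ ((p : ℝ) ^ ν) ^ (1 / 2 + ε) →
    ∑ θ : DirichletCharacter ℂ (p ^ m),
      ‖SS (χ * DirichletCharacter.changeLevel (pow_dvd_pow p hmν.le) θ) g N‖ ^ 2 ≤
      (C * (p : ℝ) ^ 50) * B ^ 2 * (p : ℝ) ^ m * N * (((p : ℝ) ^ ν) ^ ε) ^ 5 := by
  obtain ⟨C', hC', h'⟩ := t_avg H hε hε1
  set c1 : ℝ := 1 / (ε * Real.log 2) with hc1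
  have hlog : 0 < Real.log 2 := Real.log_pos (by norm_num)
  have hc10 : 0 < c1 := by positivity
  refine ⟨4 + 2 * (c1 * C'), by positivity, ?_⟩
  intro p hp hp7
  have hp0 : (0 : ℝ) < p := by exact_mod_cast hp.pos
  have hp1 : (1 : ℝ) ≤ p := by exact_mod_cast hp.one_le
  have hp7' : (7 : ℝ) ≤ p := by exact_mod_cast hp7
  set C : ℝ := C' * (p : ℝ) ^ 50 with hCd
  have hC : 0 < C := by positivity
  have h := h' p hp hp7
  rw [← hCd] at h
  have hCC : 4 + 2 * (c1 * C) ≤ (4 + 2 * (c1 * C')) * (p : ℝ) ^ 50 := by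
    have h1 : (1 : ℝ) ≤ (p : ℝ) ^ 50 := one_le_pow₀ hp1
    rw [hCd]
    nlinarith
  intro ν m _ hmν hm h19 χ hχ g B hg N hN hNle
  refine le_trans ?_ (show (4 + 2 * (c1 * C)) * B ^ 2 * (p : ℝ) ^ m * N * (((p : ℝ) ^ ν) ^ ε) ^ 5 ≤
    ((4 + 2 * (c1 * C')) * (p : ℝ) ^ 50) * B ^ 2 * (p : ℝ) ^ m * N * (((p : ℝ) ^ ν) ^ ε) ^ 5 by
    gcongr)
  have hB : 0 ≤ B := (norm_nonneg _).trans (hg.b0 0)
  set q : ℝ := (p : ℝ) ^ ν with hq
  have hq1 : 1 ≤ q := one_le_pow₀ hp1
  have hq0 : 0 < q := by linarith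
  set D : ℝ := q ^ ε with hD
  have hD1 : 1 ≤ D := Real.one_le_rpow hq1 hε.le
  have hD0 : 0 < D := by linarith
  haveI : NeZero p := ⟨hp.ne_zero⟩
  set M : ℕ := ⌊4 * N⌋₊ with hM
  have hM4 : (M : ℝ) ≤ 4 * N := Nat.floor_le (by positivity)
  set a : ℕ → ℂ := fun n => χ (n : ZMod (p ^ ν)) * g ((n : ℝ) / N) with ha
  have hane : ∀ n : ℕ, ‖a n‖ ≤ B := by
    intro n
    simp only [ha]
    rw [norm_mul]
    calc _ ≤ 1 * B := mul_le_mul (χ.norm_le_one _) (hg.b0 _) (norm_nonneg _) zero_le_one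
      _ = B := one_mul B
  have ha0 : ∀ n, M < n → a n = 0 := by
    intro n hn
    simp only [ha]
    have h1 : 4 * N < n := Nat.lt_of_floor_lt hn
    rw [hg.tst.supp, mul_zero]
    intro h2
    have := h2.2
    rw [div_le_iff₀ hN] at this
    linarith
  have hdvd : p ^ m ∣ p ^ ν := pow_dvd_pow p hmν.le
  have hunit : ∀ n : ℕ, IsUnit (n : ZMod (p ^ m)) ↔ IsUnit (n : ZMod (p ^ ν)) := by
    intro n
    rw [ZMod.isUnit_iff_coprime, ZMod.isUnit_iff_coprime, Nat.coprime_pow_right_iff (by omega),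
      Nat.coprime_pow_right_iff (by omega)]
  have hSS : ∀ θ : DirichletCharacter ℂ (p ^ m),
      SS (χ * DirichletCharacter.changeLevel hdvd θ) g N = ∑ n ∈ Icc 1 M, θ (n : ZMod (p ^ m)) * a n := by
    intro θ
    unfold SS
    refine sum_congr rfl fun n _ => ?_
    rw [MulChar.mul_apply]
    by_cases hn : IsUnit (n : ZMod (p ^ ν))
    · obtain ⟨u, hu⟩ := hn
      have : (DirichletCharacter.changeLevel hdvd θ) (n : ZMod (p ^ ν)) = θ (n : ZMod (p ^ m)) := by
        rw [← hu, DirichletCharacter.changeLevel_eq_cast_of_dvd, hu, ZMod.cast_natCast hdvd]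
      rw [this]
      simp only [ha]
      ring
    · have h1 : χ (n : ZMod (p ^ ν)) = 0 := MulChar.map_nonunit _ hn
      simp only [ha]
      rw [h1]
      ring
  simp_rw [hSS]
  have horth := orth (d := p ^ m) (Icc 1 M) a (fun n _ hn => by
    simp only [ha]
    rw [MulChar.map_nonunit χ (fun h1 => hn ((hunit n).2 h1)), zero_mul])
  refine horth.trans ?_
  have hcong := cong_sum (d := p ^ m) (M := M) (pow_pos hp.pos m) a ha0
  set G : ℕ → ℤ → ℝ := fun i l => ‖∑ n ∈ Icc 1 M, FF χ ((p : ℤ) ^ i * l) (n : ℤ) *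
      (g ((n : ℝ) / N + (p : ℝ) ^ i * l / N) * (starRingEnd ℂ) (g ((n : ℝ) / N)))‖ with hG
  have hG0 : ∀ i l, 0 ≤ G i l := fun i l => norm_nonneg _
  have hG1 : ∀ (v : ℕ) (l : ℤ), G m ((p : ℤ) ^ v * l) = G (m + v) l := by
    intro v l
    simp only [hG]
    congr 1
    refine sum_congr rfl fun n _ => ?_
    have e1 : (p : ℤ) ^ m * ((p : ℤ) ^ v * l) = (p : ℤ) ^ (m + v) * l := by ring
    have e2 : (p : ℝ) ^ m * (((p : ℤ) ^ v * l : ℤ) : ℝ) = (p : ℝ) ^ (m + v) * l := by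
      push_cast; ring
    rw [e1, e2]
  have hTl : ∀ l ∈ Icc 1 (M / p ^ m), ‖∑ n ∈ Icc 1 M, a (n + p ^ m * l) * (starRingEnd ℂ) (a n)‖ =
      G m (l : ℕ) := by
    intro l _
    simp only [hG]
    congr 1
    refine sum_congr rfl fun n _ => ?_
    simp only [ha]
    unfold FF
    rw [map_mul]
    have e2 : ((n + p ^ m * l : ℕ) : ℝ) / N = (n : ℝ) / N + (p : ℝ) ^ m * ((l : ℤ) : ℝ) / N := by
      push_cast; ring
    have e3 : ((n + p ^ m * l : ℕ) : ZMod (p ^ ν)) = (((n : ℤ) + (p : ℤ) ^ m * l : ℤ) : ZMod (p ^ ν)) := by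
      push_cast; ring
    have e4 : ((n : ℕ) : ZMod (p ^ ν)) = (((n : ℕ) : ℤ) : ZMod (p ^ ν)) := by push_cast; rfl
    rw [e2, e3, ← e4]
    ring
  -- `4 N < q`
  have hMq : M < p ^ ν := by
    have hq49 : (49 : ℝ) ≤ q := by
      calc (49 : ℝ) = 7 ^ 2 := by norm_num
        _ ≤ (p : ℝ) ^ 2 := by gcongr
        _ ≤ q := pow_le_pow_right₀ hp1 (by omega)
    have h4 : (4 : ℝ) < q ^ (7 / 16 : ℝ) := by
      have e1 : (4 : ℝ) = ((4 : ℝ) ^ 16) ^ ((16 : ℕ)⁻¹ : ℝ) := by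
        rw [Real.pow_rpow_inv_natCast (by norm_num) (by norm_num)]
      have e2 : q ^ (7 / 16 : ℝ) = (q ^ 7) ^ ((16 : ℕ)⁻¹ : ℝ) := by
        rw [← Real.rpow_natCast, ← Real.rpow_mul hq0.le]
        congr 1 <;> norm_num
      rw [e1, e2]
      apply Real.rpow_lt_rpow (by positivity) _ (by positivity)
      calc (4 : ℝ) ^ 16 < 49 ^ 7 := by norm_num
        _ ≤ q ^ 7 := by gcongr
    have h5 : (M : ℝ) < q := by
      calc (M : ℝ) ≤ 4 * N := hM4
        _ ≤ 4 * q ^ (1 / 2 + ε) := by gcongr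
        _ ≤ 4 * q ^ (9 / 16 : ℝ) := by
            gcongr
            linarith
        _ < q ^ (7 / 16 : ℝ) * q ^ (9 / 16 : ℝ) := by
            have : 0 < q ^ (9 / 16 : ℝ) := by positivity
            gcongr
        _ = q := by
            rw [← Real.rpow_add hq0]; norm_num
    rw [hq] at h5
    exact_mod_cast h5
  have hoff0 : ∑ l ∈ Icc 1 (M / p ^ m), ‖∑ n ∈ Icc 1 M, a (n + p ^ m * l) * (starRingEnd ℂ) (a n)‖ ≤
      ∑ v ∈ range (ν - m), C * B ^ 2 * N * D ^ 4 := by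
    rw [sum_congr rfl hTl]
    refine (split_v hp hMq G hG0 hG1).trans (sum_le_sum fun v hv => ?_)
    rw [mem_range] at hv
    exact h ν (m + v) (by omega) (by omega) (by omega) χ hχ g B hg N hN hNle
  have hν : (ν : ℝ) ≤ c1 * D := by
    have h1 := nat_le_pow hε ν
    have h2 : ((2 : ℝ) ^ ν) ^ ε ≤ D := by
      rw [hD, hq]
      have : (2 : ℝ) ≤ p := by linarith
      gcongr
    exact h1.trans (by gcongr)
  have hoff : ∑ l ∈ Icc 1 (M / p ^ m), ‖∑ n ∈ Icc 1 M, a (n + p ^ m * l) * (starRingEnd ℂ) (a n)‖ ≤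
      c1 * C * (B ^ 2 * N * D ^ 5) := by
    refine hoff0.trans ?_
    rw [sum_const, card_range, nsmul_eq_mul]
    have h2 : ((ν - m : ℕ) : ℝ) ≤ c1 * D := by
      refine le_trans ?_ hν
      exact_mod_cast Nat.sub_le ν m
    calc _ ≤ (c1 * D) * (C * B ^ 2 * N * D ^ 4) := by gcongr
      _ = _ := by ring
  have hdiag : ∑ n ∈ Icc 1 M, ‖a n‖ ^ 2 ≤ 4 * N * B ^ 2 := by
    calc ∑ n ∈ Icc 1 M, ‖a n‖ ^ 2 ≤ ∑ n ∈ Icc 1 M, B ^ 2 := by
          refine sum_le_sum fun n _ => ?_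
          have := hane n
          gcongr
      _ = M * B ^ 2 := by rw [sum_const, Nat.card_Icc, Nat.add_sub_cancel, nsmul_eq_mul]
      _ ≤ _ := by gcongr
  have hD5 : 1 ≤ D ^ 5 := one_le_pow₀ hD1
  have hpm : ((p ^ m : ℕ) : ℝ) = (p : ℝ) ^ m := by push_cast; rfl
  rw [hpm]
  calc (p : ℝ) ^ m * _ ≤ (p : ℝ) ^ m * (4 * N * B ^ 2 + 2 * (c1 * C * (B ^ 2 * N * D ^ 5))) := by
        refine mul_le_mul_of_nonneg_left (hcong.trans ?_) (by positivity)
        exact add_le_add hdiag (mul_le_mul_of_nonneg_left hoff (by norm_num))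
    _ ≤ (p : ℝ) ^ m * (4 * (B ^ 2 * N * D ^ 5) + 2 * (c1 * C * (B ^ 2 * N * D ^ 5))) := by
        have h1 : 4 * N * B ^ 2 * 1 ≤ 4 * N * B ^ 2 * D ^ 5 := by gcongr
        have h2 : 4 * N * B ^ 2 ≤ 4 * (B ^ 2 * N * D ^ 5) := by nlinarith
        gcongr
    _ = _ := by ring

end Pool.Agent.Y766.R7
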