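import Pool.Agent.Y766.R7.ZG
import Pool.Agent.Y766.A4

/-!
Mean squares over cosets of characters mod `p^m`, `m / ν ≥ 19 / 58`, and individual values.
-/

set_option autoImplicit false

namespace Pool.Agent.Y766.R7

open Finset
open Pool.Agent.H442R2 Pool.Agent.H442R2.TSM
open Pool.Agent.Y766
open Pool.Agent.Y766.R3 (prim_mul)

theorem main7 (H : HH) {ε : ℝ} (hε : 0 < ε) : ∃ (C : ℝ) (A : ℕ), 0 < C ∧
    ∀ (p : ℕ) [Fact p.Prime], 7 ≤ p → ∀ (ν m : ℕ) (hmν : m < ν),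
    19 * ν ≤ 58 * m → ∀ χ : DirichletCharacter ℂ (p ^ ν), χ.IsPrimitive → ∀ t : ℝ,
    ∑ θ : DirichletCharacter ℂ (p ^ m),
      ‖(χ * DirichletCharacter.changeLevel (pow_dvd_pow p hmν.le) θ).LFunction
        (1 / 2 + (t : ℂ) * Complex.I)‖ ^ 2 ≤
      (C * (p : ℝ) ^ 50) * (1 + |t|) ^ A * ((p : ℝ) ^ ν) ^ ε * (p : ℝ) ^ m := by
  set δ : ℝ := min ε 1 / 1000 with hδ
  have hδ0 : 0 < δ := by positivity
  have hδε : 7 * δ ≤ ε := by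
    have := min_le_left ε 1
    have h0 : 0 < min ε 1 := by positivity
    rw [hδ]; linarith
  have hδ1 : δ ≤ 1 / 1000 := by
    have := min_le_right ε 1
    rw [hδ]; linarith
  obtain ⟨C1, A, hC1, h1⟩ := afe1 hδ0 (by linarith : δ ≤ 1)
  obtain ⟨C2', hC2', h2'⟩ := one_sum7 H hδ0 hδ1
  refine ⟨2 * C1 ^ 2 + 2 * (C1 * C1 * C2' * C1 ^ 2), 2 * A, by positivity, ?_⟩
  intro p hpf hp7
  have hp : p.Prime := hpf.out
  have hp0 : (0 : ℝ) < p := by exact_mod_cast hp.pos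
  have hp1 : (1 : ℝ) ≤ p := by exact_mod_cast hp.one_le
  set C2 : ℝ := C2' * (p : ℝ) ^ 50 with hC2d
  have hC2 : 0 < C2 := by positivity
  have h2 := h2' p hp hp7
  rw [← hC2d] at h2
  have hCC : 2 * C1 ^ 2 + 2 * (C1 * C1 * C2 * C1 ^ 2) ≤
      (2 * C1 ^ 2 + 2 * (C1 * C1 * C2' * C1 ^ 2)) * (p : ℝ) ^ 50 := by
    have h3 : (1 : ℝ) ≤ (p : ℝ) ^ 50 := one_le_pow₀ hp1
    have h4 : 2 * C1 ^ 2 * 1 ≤ 2 * C1 ^ 2 * (p : ℝ) ^ 50 := by gcongr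
    rw [hC2d]
    nlinarith
  intro ν m hmν h19 χ hχ t
  haveI : NeZero p := ⟨hp.ne_zero⟩
  haveI : NeZero (p ^ m) := ⟨pow_ne_zero _ hp.ne_zero⟩
  haveI : NeZero (p ^ ν) := ⟨pow_ne_zero _ hp.ne_zero⟩
  refine le_trans ?_ (show (2 * C1 ^ 2 + 2 * (C1 * C1 * C2 * C1 ^ 2)) * (1 + |t|) ^ (2 * A) *
    ((p : ℝ) ^ ν) ^ ε * (p : ℝ) ^ m ≤ ((2 * C1 ^ 2 + 2 * (C1 * C1 * C2' * C1 ^ 2)) * (p : ℝ) ^ 50) *
    (1 + |t|) ^ (2 * A) * ((p : ℝ) ^ ν) ^ ε * (p : ℝ) ^ m by gcongr)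
  have hm : 1 ≤ m := by omega
  have hq : 1 < p ^ ν := Nat.one_lt_pow (by omega) hp.one_lt
  have hqe : ((p ^ ν : ℕ) : ℝ) = (p : ℝ) ^ ν := by push_cast; rfl
  obtain ⟨ι, _, N, g, hcard, hN, hg, hL⟩ := h1 t (p ^ ν) hq
  rw [hqe] at hcard hN
  set q : ℝ := (p : ℝ) ^ ν with hqd
  have hq1 : 1 ≤ q := one_le_pow₀ hp1
  have hq0 : 0 < q := by linarith
  set T : ℝ := C1 * (1 + |t|) ^ A with hT
  have hT0 : 0 < T := by positivity
  set n : ℝ := (Fintype.card ι : ℝ) with hn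
  have hn0 : 0 ≤ n := Nat.cast_nonneg _
  set ψ : DirichletCharacter ℂ (p ^ m) → DirichletCharacter ℂ (p ^ ν) := fun θ =>
    χ * DirichletCharacter.changeLevel (pow_dvd_pow p hmν.le) θ with hψ
  have hpt : ∀ θ : DirichletCharacter ℂ (p ^ m),
        ‖(ψ θ).LFunction (1 / 2 + (t : ℂ) * Complex.I)‖ ^ 2 ≤
      2 * T ^ 2 + 2 * (n * ∑ i, (N i)⁻¹ * ‖SS (ψ θ) (g i) (N i)‖ ^ 2) := by
    intro θ
    have h3 := hL (ψ θ) (prim_mul hp hmν hχ θ)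
    have h4 : (∑ i, N i ^ (-(1 / 2) : ℝ) * ‖SS (ψ θ) (g i) (N i)‖) ^ 2 ≤
        n * ∑ i, (N i ^ (-(1 / 2) : ℝ) * ‖SS (ψ θ) (g i) (N i)‖) ^ 2 := by
      have := sq_sum_le_card_mul_sum_sq (s := (univ : Finset ι))
        (f := fun i => N i ^ (-(1 / 2) : ℝ) * ‖SS (ψ θ) (g i) (N i)‖)
      rwa [card_univ] at this
    have h5 : ∀ i, (N i ^ (-(1 / 2) : ℝ) * ‖SS (ψ θ) (g i) (N i)‖) ^ 2 =
        (N i)⁻¹ * ‖SS (ψ θ) (g i) (N i)‖ ^ 2 := by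
      intro i
      have hNi : 0 < N i := by linarith [(hN i).1]
      rw [mul_pow]
      congr 1
      rw [← Real.rpow_natCast, ← Real.rpow_mul hNi.le, ← Real.rpow_neg_one]
      congr 1
      norm_num
    simp_rw [h5] at h4
    set S := ∑ i, N i ^ (-(1 / 2) : ℝ) * ‖SS (ψ θ) (g i) (N i)‖ with hS
    calc _ ≤ (T + S) ^ 2 := by gcongr
      _ ≤ 2 * T ^ 2 + 2 * S ^ 2 := by nlinarith [sq_nonneg (T - S)]
      _ ≤ _ := by linarith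
  have hcardθ : (Fintype.card (DirichletCharacter ℂ (p ^ m)) : ℝ) ≤ (p : ℝ) ^ m := by
    have e1 := DirichletCharacter.card_eq_totient_of_hasEnoughRootsOfUnity ℂ (p ^ m)
    rw [← Nat.card_eq_fintype_card, e1]
    calc ((p ^ m).totient : ℝ) ≤ ((p ^ m : ℕ) : ℝ) := by exact_mod_cast Nat.totient_le _
      _ = _ := by push_cast; rfl
  have hpm0 : 0 < (p : ℝ) ^ m := by positivity
  calc ∑ θ : DirichletCharacter ℂ (p ^ m), ‖(ψ θ).LFunction (1 / 2 + (t : ℂ) * Complex.I)‖ ^ 2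
      ≤ ∑ θ : DirichletCharacter ℂ (p ^ m),
        (2 * T ^ 2 + 2 * (n * ∑ i, (N i)⁻¹ * ‖SS (ψ θ) (g i) (N i)‖ ^ 2)) :=
        sum_le_sum fun θ _ => hpt θ
    _ = 2 * T ^ 2 * (Fintype.card (DirichletCharacter ℂ (p ^ m))) +
        2 * (n * ∑ i, (N i)⁻¹ * ∑ θ : DirichletCharacter ℂ (p ^ m), ‖SS (ψ θ) (g i) (N i)‖ ^ 2) := by
        rw [sum_add_distrib, sum_const, card_univ, nsmul_eq_mul, ← mul_sum, ← mul_sum, sum_comm]
        simp_rw [← mul_sum]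
        ring
    _ ≤ 2 * T ^ 2 * (p : ℝ) ^ m + 2 * (n * ∑ i : ι, C2 * T ^ 2 * (p : ℝ) ^ m * (q ^ δ) ^ 5) := by
        have h6 : ∀ i : ι, (N i)⁻¹ * ∑ θ : DirichletCharacter ℂ (p ^ m), ‖SS (ψ θ) (g i) (N i)‖ ^ 2 ≤
            C2 * T ^ 2 * (p : ℝ) ^ m * (q ^ δ) ^ 5 := by
          intro i
          have hNi : 0 < N i := by linarith [(hN i).1]
          have h7 := h2 ν m hmν hm h19 χ hχ (g i) T (hg i) (N i) hNi (hN i).2
          calc _ ≤ (N i)⁻¹ * (C2 * T ^ 2 * (p : ℝ) ^ m * N i * (q ^ δ) ^ 5) := by gcongr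
            _ = _ := by field_simp
        have h8 : ∑ i : ι, (N i)⁻¹ * ∑ θ : DirichletCharacter ℂ (p ^ m), ‖SS (ψ θ) (g i) (N i)‖ ^ 2 ≤
            ∑ i : ι, C2 * T ^ 2 * (p : ℝ) ^ m * (q ^ δ) ^ 5 := sum_le_sum fun i _ => h6 i
        gcongr
    _ = 2 * T ^ 2 * (p : ℝ) ^ m + 2 * (n * n * (C2 * T ^ 2 * (p : ℝ) ^ m * (q ^ δ) ^ 5)) := by
        rw [sum_const, nsmul_eq_mul, card_univ]; ring
    _ ≤ 2 * T ^ 2 * (p : ℝ) ^ m * q ^ ε + 2 * ((C1 * q ^ δ) * (C1 * q ^ δ) *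
        (C2 * T ^ 2 * (p : ℝ) ^ m * (q ^ δ) ^ 5)) := by
        have hqe : 1 ≤ q ^ ε := Real.one_le_rpow hq1 hε.le
        have h5 : 2 * T ^ 2 * (p : ℝ) ^ m ≤ 2 * T ^ 2 * (p : ℝ) ^ m * q ^ ε :=
          le_mul_of_one_le_right (by positivity) hqe
        gcongr
    _ = 2 * T ^ 2 * (p : ℝ) ^ m * q ^ ε + 2 * (C1 * C1 * C2 * T ^ 2 * (p : ℝ) ^ m) * (q ^ δ) ^ 7 := by ring
    _ ≤ 2 * T ^ 2 * (p : ℝ) ^ m * q ^ ε + 2 * (C1 * C1 * C2 * T ^ 2 * (p : ℝ) ^ m) * q ^ ε := by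
        have h6 : (q ^ δ) ^ 7 ≤ q ^ ε := by
          rw [← Real.rpow_natCast, ← Real.rpow_mul hq0.le]
          refine Real.rpow_le_rpow_of_exponent_le hq1 ?_
          push_cast; linarith
        gcongr
    _ = _ := by
      rw [hT]
      ring

/-- trivial bound -/
lemma triv_mod : ∃ (C : ℝ) (A : ℕ), 0 < C ∧ ∀ (q : ℕ) [NeZero q], 1 < q →
    ∀ χ : DirichletCharacter ℂ q, χ.IsPrimitive → ∀ t : ℝ,
    ‖χ.LFunction (1 / 2 + (t : ℂ) * Complex.I)‖ ≤ C * (q : ℝ) ^ 3 * (1 + |t|) ^ A := by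
  obtain ⟨C1, A, hC1, h1⟩ := afe1 (one_pos) (le_refl (1 : ℝ))
  refine ⟨C1 + 8 * C1 ^ 2, 2 * A, by positivity, fun q _ hq χ hχ t => ?_⟩
  have hq0 : (0 : ℝ) < q := by exact_mod_cast (by omega : 0 < q)
  have hq1 : (1 : ℝ) ≤ q := by exact_mod_cast hq.le
  set Q : ℝ := (q : ℝ) ^ (1 / 2 + 1 : ℝ) with hQ
  have hQ0 : 0 < Q := by positivity
  have hQ2 : Q ≤ (q : ℝ) ^ 2 := by
    rw [hQ, ← Real.rpow_natCast]
    refine Real.rpow_le_rpow_of_exponent_le hq1 (by norm_num)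
  obtain ⟨ι, _, N, g, hcard, hN, hg, hL⟩ := h1 t q hq
  have h3 := hL χ hχ
  rw [Real.rpow_one] at hcard
  set T : ℝ := C1 * (1 + |t|) ^ A with hT
  have hT0 : 0 < T := by positivity
  have h4 : ∀ i, N i ^ (-(1 / 2) : ℝ) * ‖SS χ (g i) (N i)‖ ≤ 2 * (4 * Q * T) := by
    intro i
    have hNi : 0 < N i := by linarith [(hN i).1]
    have e1 : N i ^ (-(1 / 2) : ℝ) ≤ 2 := by
      have h5 : N i ^ (-(1 / 2) : ℝ) ≤ (1 / 4 : ℝ) ^ (-(1 / 2) : ℝ) :=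
        Real.rpow_le_rpow_of_nonpos (by norm_num) (hN i).1 (by norm_num)
      have h6 : (1 / 4 : ℝ) ^ (-(1 / 2) : ℝ) = 2 := by
        rw [show (1 / 4 : ℝ) = (2 : ℝ) ^ (-2 : ℝ) by
          rw [Real.rpow_neg (by norm_num)]; norm_num, ← Real.rpow_mul (by norm_num)]
        norm_num
      linarith
    have e2 : ‖SS χ (g i) (N i)‖ ≤ 4 * Q * T := by
      unfold SS
      refine (norm_sum_le _ _).trans ?_
      calc _ ≤ ∑ n ∈ Icc 1 ⌊4 * N i⌋₊, T := by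
            refine sum_le_sum fun n _ => ?_
            rw [norm_mul]
            calc _ ≤ 1 * T := mul_le_mul (χ.norm_le_one _) ((hg i).b0 _) (norm_nonneg _) zero_le_one
              _ = T := one_mul T
        _ = (⌊4 * N i⌋₊ : ℝ) * T := by
            rw [sum_const, Nat.card_Icc, Nat.add_sub_cancel, nsmul_eq_mul]
        _ ≤ (4 * N i) * T := by
            have := Nat.floor_le (by positivity : (0 : ℝ) ≤ 4 * N i)
            gcongr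
        _ ≤ 4 * Q * T := by
            have := (hN i).2
            gcongr
    exact mul_le_mul e1 e2 (norm_nonneg _) (by norm_num)
  have ht1 : (1 : ℝ) ≤ 1 + |t| := by linarith [abs_nonneg t]
  have htA : (1 + |t|) ^ A ≤ (1 + |t|) ^ (2 * A) := pow_le_pow_right₀ ht1 (by omega)
  have hq3 : (1 : ℝ) ≤ (q : ℝ) ^ 3 := one_le_pow₀ hq1
  calc _ ≤ T + ∑ i, N i ^ (-(1 / 2) : ℝ) * ‖SS χ (g i) (N i)‖ := h3
    _ ≤ T + ∑ i : ι, 2 * (4 * Q * T) := by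
        have := sum_le_sum (s := (univ : Finset ι)) (fun i _ => h4 i)
        linarith
    _ = T + (Fintype.card ι : ℝ) * (2 * (4 * Q * T)) := by
        rw [sum_const, nsmul_eq_mul, card_univ]
    _ ≤ T + (C1 * q) * (2 * (4 * (q : ℝ) ^ 2 * T)) := by gcongr
    _ = C1 * (1 + |t|) ^ A * 1 + 8 * C1 ^ 2 * (1 + |t|) ^ A * (q : ℝ) ^ 3 := by rw [hT]; ring
    _ ≤ C1 * (1 + |t|) ^ (2 * A) * (q : ℝ) ^ 3 + 8 * C1 ^ 2 * (1 + |t|) ^ (2 * A) * (q : ℝ) ^ 3 := by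
        gcongr
    _ = _ := by ring

/-- all `m` -/
theorem final7 (H : HH) {ε : ℝ} (hε : 0 < ε) : ∃ (C : ℝ) (A : ℕ), 0 < C ∧
    ∀ (p : ℕ) [Fact p.Prime], 7 ≤ p → ∀ (ν m : ℕ) (hmν : m < ν),
    ∀ χ : DirichletCharacter ℂ (p ^ ν), χ.IsPrimitive → ∀ t : ℝ,
    ∑ θ : DirichletCharacter ℂ (p ^ m),
      ‖(χ * DirichletCharacter.changeLevel (pow_dvd_pow p hmν.le) θ).LFunction
        (1 / 2 + (t : ℂ) * Complex.I)‖ ^ 2 ≤
      C * (p : ℝ) ^ 51 * (1 + |t|) ^ A * ((p : ℝ) ^ ν) ^ ε *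
        ((p : ℝ) ^ m + ((p : ℝ) ^ ν) ^ (19 / 58 : ℝ)) := by
  classical
  obtain ⟨C1, A1, hC1, h1⟩ := main7 H hε
  obtain ⟨C2, A2, hC2, h2⟩ := triv_mod
  refine ⟨C2 ^ 2 + C1, A1 + 2 * A2, by positivity, ?_⟩
  intro p hpf hp7 ν m hmν χ hχ t
  have hp : p.Prime := hpf.out
  have hp0 : (0 : ℝ) < p := by exact_mod_cast hp.pos
  have hp1 : (1 : ℝ) ≤ p := by exact_mod_cast hp.one_le
  haveI : NeZero p := ⟨hp.ne_zero⟩
  haveI : ∀ n, NeZero (p ^ n) := fun n => ⟨pow_ne_zero _ hp.ne_zero⟩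
  set q : ℝ := (p : ℝ) ^ ν with hqd
  have hq1 : 1 ≤ q := one_le_pow₀ hp1
  have hq0 : 0 < q := by linarith
  have hqe1 : 1 ≤ q ^ ε := Real.one_le_rpow hq1 hε.le
  have ht1 : (1 : ℝ) ≤ 1 + |t| := by linarith [abs_nonneg t]
  have hqs : (0 : ℝ) < q ^ (19 / 58 : ℝ) := by positivity
  have hA1 : (1 + |t|) ^ A1 ≤ (1 + |t|) ^ (A1 + 2 * A2) := pow_le_pow_right₀ ht1 (by omega)
  have hA2 : (1 + |t|) ^ (2 * A2) ≤ (1 + |t|) ^ (A1 + 2 * A2) := pow_le_pow_right₀ ht1 (by omega)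
  have hp51 : (p : ℝ) ^ 50 ≤ (p : ℝ) ^ 51 := pow_le_pow_right₀ hp1 (by norm_num)
  have hp51' : (p : ℝ) ^ 6 ≤ (p : ℝ) ^ 51 := pow_le_pow_right₀ hp1 (by norm_num)
  rcases le_or_gt (19 * ν) (58 * m) with h19 | h19
  · refine (h1 p hp7 ν m hmν h19 χ hχ t).trans ?_
    have hle : (p : ℝ) ^ m ≤ (p : ℝ) ^ m + q ^ (19 / 58 : ℝ) := by linarith
    have hC : C1 ≤ C2 ^ 2 + C1 := by nlinarith [sq_nonneg C2]
    gcongr
  rcases Nat.lt_or_ge ν 2 with hν2 | hν2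
  · obtain rfl : ν = 1 := by omega
    obtain rfl : m = 0 := by omega
    have hcard : (Fintype.card (DirichletCharacter ℂ (p ^ 0)) : ℝ) ≤ 1 := by
      have e1 := DirichletCharacter.card_eq_totient_of_hasEnoughRootsOfUnity ℂ (p ^ 0)
      rw [← Nat.card_eq_fintype_card, e1, pow_zero]
      simp
    have hone : ∀ θ : DirichletCharacter ℂ (p ^ 0),
        ‖(χ * DirichletCharacter.changeLevel (pow_dvd_pow p hmν.le) θ).LFunction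
        (1 / 2 + (t : ℂ) * Complex.I)‖ ^ 2 ≤ C2 ^ 2 * (p : ℝ) ^ 6 * (1 + |t|) ^ (2 * A2) := by
      intro θ
      have h3 := h2 (p ^ 1) (by rw [pow_one]; exact hp.one_lt) _ (prim_mul hp hmν hχ θ) t
      calc _ ≤ (C2 * ((p ^ 1 : ℕ) : ℝ) ^ 3 * (1 + |t|) ^ A2) ^ 2 := by gcongr
        _ = _ := by push_cast; rw [pow_one]; ring
    have hrhs : C2 ^ 2 * (p : ℝ) ^ 6 * (1 + |t|) ^ (2 * A2) ≤ (C2 ^ 2 + C1) * (p : ℝ) ^ 51 *
        (1 + |t|) ^ (A1 + 2 * A2) * q ^ ε * ((p : ℝ) ^ 0 + q ^ (19 / 58 : ℝ)) := by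
      have h5 : (1 : ℝ) ≤ (p : ℝ) ^ 0 + q ^ (19 / 58 : ℝ) := by rw [pow_zero]; linarith
      calc C2 ^ 2 * (p : ℝ) ^ 6 * (1 + |t|) ^ (2 * A2) = C2 ^ 2 * (p : ℝ) ^ 6 * (1 + |t|) ^ (2 * A2) *
            1 * 1 := by ring
        _ ≤ _ := by
            have hC : C2 ^ 2 ≤ C2 ^ 2 + C1 := by linarith
            gcongr
    calc _ ≤ ∑ θ : DirichletCharacter ℂ (p ^ 0), C2 ^ 2 * (p : ℝ) ^ 6 * (1 + |t|) ^ (2 * A2) :=
          sum_le_sum fun θ _ => hone θ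
      _ = (Fintype.card (DirichletCharacter ℂ (p ^ 0)) : ℝ) *
          (C2 ^ 2 * (p : ℝ) ^ 6 * (1 + |t|) ^ (2 * A2)) := by
          rw [sum_const, nsmul_eq_mul, card_univ]
      _ ≤ 1 * (C2 ^ 2 * (p : ℝ) ^ 6 * (1 + |t|) ^ (2 * A2)) := by gcongr
      _ ≤ _ := by rw [one_mul]; exact hrhs
  · -- embed the coset in a larger one
    set m' : ℕ := (19 * ν + 57) / 58 with hm'
    have hm'ν : m' < ν := by omega
    have hmm' : m ≤ m' := by omega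
    have h19' : 19 * ν ≤ 58 * m' := by omega
    have h3 := h1 p hp7 ν m' hm'ν h19' χ hχ t
    set e : DirichletCharacter ℂ (p ^ m) → DirichletCharacter ℂ (p ^ m') := fun θ =>
      DirichletCharacter.changeLevel (pow_dvd_pow p hmm') θ with he
    have heinj : Function.Injective e := by
      intro θ θ' h
      exact DirichletCharacter.changeLevel_injective (pow_dvd_pow p hmm') h
    have hsum : ∑ θ : DirichletCharacter ℂ (p ^ m),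
      ‖(χ * DirichletCharacter.changeLevel (pow_dvd_pow p hmν.le) θ).LFunction
        (1 / 2 + (t : ℂ) * Complex.I)‖ ^ 2 ≤ ∑ θ : DirichletCharacter ℂ (p ^ m'),
      ‖(χ * DirichletCharacter.changeLevel (pow_dvd_pow p hm'ν.le) θ).LFunction
        (1 / 2 + (t : ℂ) * Complex.I)‖ ^ 2 := by
      have e1 : ∀ θ : DirichletCharacter ℂ (p ^ m),
          DirichletCharacter.changeLevel (pow_dvd_pow p hmν.le) θ =
          DirichletCharacter.changeLevel (pow_dvd_pow p hm'ν.le) (e θ) := by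
        intro θ
        simp only [he]
        exact DirichletCharacter.changeLevel_trans θ _ _
      simp_rw [e1]
      rw [← sum_image (s := univ) (g := e) (f := fun θ' => ‖(χ * DirichletCharacter.changeLevel
        (pow_dvd_pow p hm'ν.le) θ').LFunction (1 / 2 + (t : ℂ) * Complex.I)‖ ^ 2)
        (fun x _ y _ h => heinj h)]
      exact sum_le_sum_of_subset_of_nonneg (subset_univ _) fun _ _ _ => by positivity
    have hpm : (p : ℝ) ^ m' ≤ p * q ^ (19 / 58 : ℝ) := by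
      have e1 : p * q ^ (19 / 58 : ℝ) = (p : ℝ) ^ (1 + (ν : ℝ) * (19 / 58)) := by
        rw [Real.rpow_add hp0, Real.rpow_one, hqd, Real.rpow_mul hp0.le, Real.rpow_natCast]
      rw [e1, ← Real.rpow_natCast]
      refine Real.rpow_le_rpow_of_exponent_le hp1 ?_
      have : (58 : ℝ) * m' ≤ 19 * ν + 57 := by exact_mod_cast (by omega : 58 * m' ≤ 19 * ν + 57)
      linarith
    refine hsum.trans (h3.trans ?_)
    have hpm0 : (0 : ℝ) < (p : ℝ) ^ m := by positivity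
    calc (C1 * (p : ℝ) ^ 50) * (1 + |t|) ^ A1 * q ^ ε * (p : ℝ) ^ m'
        ≤ (C1 * (p : ℝ) ^ 50) * (1 + |t|) ^ (A1 + 2 * A2) * q ^ ε * (p * q ^ (19 / 58 : ℝ)) := by gcongr
      _ = C1 * (p : ℝ) ^ 51 * (1 + |t|) ^ (A1 + 2 * A2) * q ^ ε * q ^ (19 / 58 : ℝ) := by ring
      _ ≤ (C2 ^ 2 + C1) * (p : ℝ) ^ 51 * (1 + |t|) ^ (A1 + 2 * A2) * q ^ ε *
          ((p : ℝ) ^ m + q ^ (19 / 58 : ℝ)) := by
          have hC : C1 ≤ C2 ^ 2 + C1 := by nlinarith [sq_nonneg C2]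
          have hle : q ^ (19 / 58 : ℝ) ≤ (p : ℝ) ^ m + q ^ (19 / 58 : ℝ) := by linarith
          gcongr

end Pool.Agent.Y766.R7
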